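import Pool.Agent.Helper29.T5.PatAlt

/-!
# T5: the pattern alternative of the table in real numbers, for arbitrary positions `l' ≤ l ≤ 5 l'`
-/

namespace Pool.Agent.Helper25.T5

open Finset Pool.Agent.Helper27.T4 Pool.Agent.Helper5.ET
  Pool.Agent.Helper98.T5 Pool.Agent.Helper36.T4
open Pool.Agent.Helper98.T4 (Mo okM te me)
open Pool.Agent.Helper25.T4 (alt_pos al_x al_y2 frs_iff frs_iff2 bit_iff log_Nj_ge)
open Pool.Agent.Helper29.T4 (fk_cases sum_fk ix ix_lt fk_ix ix_fk mo okM_conv te_conv me_conv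
  static_al)
open Pool.Agent.Helper29.T4
open Pool.Agent.Helper29.T5 (cnt_of_al5 le_era)

/-- the side of the three main families at a position, without keys -/
def mS (l : ℕ) : Sd (Fin 3) Unit := ⟨av l, pre l, fun _ _ => ()⟩

/-- the pattern alternative in real numbers -/
def AltR (l l' : ℕ) (C C' : Finset (Fin 3)) : Prop :=
  (∃ f, f ∉ frs (mS l) C ∧ f ∉ frs (mS l') C' ∧ f ∈ C ∧ f ∉ C') ∨
  (∃ f, f ∉ frs (mS l) C ∧ f ∉ frs (mS l') C' ∧ f ∉ C ∧ f ∈ C' ∧
    al pr (av l) f ≤ 2 * al pr (av l') f) ∨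
  (∃ f, f ∉ frs (mS l) C ∧ f ∉ frs (mS l') C' ∧ f ∉ C ∧ f ∉ C' ∧ av l f = av l' f) ∨
  (∑ f, al pr (av l') f + (1 / 100) * (∑ f, al pr (av l) f - ∑ f, al pr (av l') f) ≤
    ∑ f, if f ∈ C ∧ f ∉ frs (mS l) C then al pr (av l) f
      else if f ∈ C' ∧ f ∉ frs (mS l') C' then al pr (av l') f else 0) ∨
  (∃ md : Fin 3 → Mo, (∀ f, okM (f ∉ frs (mS l) C) (f ∉ frs (mS l') C') (md f)) ∧
    ∀ w : ℝ, 0 ≤ w → ∑ f, te (decide (f ∈ C)) (decide (f ∈ C')) (al pr (av l) f)
        (al pr (av l') f) (md f) +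
        max 0 (∑ f, al pr (av l') f + w - ∑ f, me (al pr (av l) f) (al pr (av l') f) (md f)) -
        ∑ f ∈ frs (mS l) C, al pr (av l) f - ∑ f ∈ frs (mS l') C', al pr (av l') f ≤
      w - (1 / 100) * (∑ f, al pr (av l) f - ∑ f, al pr (av l') f))

/-- from the table to real numbers -/
theorem altR_of_alt {l l' K d ph ph2 c c2 : ℕ} {W : ℕ → ℝ} {x y : ℝ}
    {C C' : Finset (Fin 3)}
    (hL : ∀ i < 3, al pr (av l) (fk (K + i)) = Tab.lamR d W x i)
    (hL' : ∀ i < 3, al pr (av l') (fk (K + i)) = Tab.lamS d W y i)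
    (hF : ∀ i < 3, (fk (K + i) ∈ frs (mS l) C ↔ Tab.fr ph c i = true))
    (hF' : ∀ i < 3, (fk (K + i) ∈ frs (mS l') C' ↔ Tab.fr2 d ph2 c2 i = true))
    (hb : ∀ i < 3, (Tab.bit c i = true ↔ fk (K + i) ∈ C))
    (hb' : ∀ i < 3, (Tab.bit c2 i = true ↔ fk (K + i) ∈ C'))
    (hA : Tab.Alt d ph ph2 c c2 W x y) : AltR l l' C C' := by
  have hFn : ∀ i < 3, Tab.fr ph c i = false → fk (K + i) ∉ frs (mS l) C := by
    intro i hi h h1
    rw [(hF i hi).mp h1] at h
    exact absurd h (by decide)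
  have hFn' : ∀ i < 3, Tab.fr2 d ph2 c2 i = false → fk (K + i) ∉ frs (mS l') C' := by
    intro i hi h h1
    rw [(hF' i hi).mp h1] at h
    exact absurd h (by decide)
  have hbn : ∀ i < 3, Tab.bit c i = false → fk (K + i) ∉ C := by
    intro i hi h h1
    rw [(hb i hi).mpr h1] at h
    exact absurd h (by decide)
  have hbn' : ∀ i < 3, Tab.bit c2 i = false → fk (K + i) ∉ C' := by
    intro i hi h h1
    rw [(hb' i hi).mpr h1] at h
    exact absurd h (by decide)
  have hsL := Helper29.T4.sum_fk K (fun f => al pr (av l) f)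
  have hsL' := Helper29.T4.sum_fk K (fun f => al pr (av l') f)
  have e0 := hL 0 (by norm_num)
  have e1 := hL 1 (by norm_num)
  have e2 := hL 2 (by norm_num)
  have e0' := hL' 0 (by norm_num)
  have e1' := hL' 1 (by norm_num)
  have e2' := hL' 2 (by norm_num)
  rw [add_zero] at e0 e0'
  rw [e0, e1, e2] at hsL
  rw [e0', e1', e2'] at hsL'
  rcases hA with ⟨i, hi, h1, h2, h3, h4⟩ | ⟨i, hi, h1, h2, h3, h4, h5⟩ | ⟨i, hi, h1, h2, h3, h4, h5⟩ |
    h | ⟨e, hM, hT⟩
  · exact Or.inl ⟨fk (K + i), hFn i hi h1, hFn' i hi h2, (hb i hi).mp h3, hbn' i hi h4⟩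
  · refine Or.inr (Or.inl ⟨fk (K + i), hFn i hi h1, hFn' i hi h2, hbn i hi h3,
      (hb' i hi).mp h4, ?_⟩)
    rw [hL i hi, hL' i hi]
    exact h5
  · refine Or.inr (Or.inr (Or.inl ⟨fk (K + i), hFn i hi h1, hFn' i hi h2, hbn i hi h3,
      hbn' i hi h4, ?_⟩))
    apply cnt_of_al5
    rw [hL i hi, hL' i hi]
    exact static_al h5 hi W x y
  · refine Or.inr (Or.inr (Or.inr (Or.inl ?_)))
    have key : ∀ i < 3, (if fk (K + i) ∈ C ∧ fk (K + i) ∉ frs (mS l) C then
        al pr (av l) (fk (K + i))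
        else if fk (K + i) ∈ C' ∧ fk (K + i) ∉ frs (mS l') C' then al pr (av l') (fk (K + i))
        else 0) = (Tab.b2z (Tab.bit c i && !(Tab.fr ph c i)) : ℤ) * Tab.lamR d W x i +
        (Tab.b2z (!(Tab.bit c i && !(Tab.fr ph c i)) &&
          (Tab.bit c2 i && !(Tab.fr2 d ph2 c2 i))) : ℤ) * Tab.lamS d W y i := by
      intro i hi
      rw [hL i hi, hL' i hi]
      have a1 := hb i hi
      have a2 := hb' i hi
      have a3 := hF i hi
      have a4 := hF' i hi
      by_cases q1 : fk (K + i) ∈ C <;> by_cases q2 : fk (K + i) ∈ C' <;>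
        by_cases q3 : fk (K + i) ∈ frs (mS l) C <;>
        by_cases q4 : fk (K + i) ∈ frs (mS l') C' <;>
        · cases r1 : Tab.bit c i <;> cases r2 : Tab.bit c2 i <;>
            cases r3 : Tab.fr ph c i <;> cases r4 : Tab.fr2 d ph2 c2 i <;>
            simp_all [Tab.b2z]
    rw [Helper29.T4.sum_fk K (fun f => if f ∈ C ∧ f ∉ frs (mS l) C then al pr (av l) f
      else if f ∈ C' ∧ f ∉ frs (mS l') C' then al pr (av l') f else 0)]
    have k0 := key 0 (by norm_num)
    have k1 := key 1 (by norm_num)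
    have k2 := key 2 (by norm_num)
    rw [add_zero] at k0
    rw [k0, k1, k2, hsL, hsL']
    unfold Tab.GG at h
    push_cast at h
    linarith
  · refine Or.inr (Or.inr (Or.inr (Or.inr ?_)))
    have hM' : ∀ f, Tab.okM (Tab.md e (ix K f)) (Tab.fr ph c (ix K f))
        (Tab.fr2 d ph2 c2 (ix K f)) = true := fun f => (hM _ (ix_lt K f)).1
    refine ⟨fun f => mo (Tab.md e (ix K f)), ?_, ?_⟩
    · intro f
      have h1 := hFn _ (ix_lt K f)
      have h2 := hFn' _ (ix_lt K f)
      rw [fk_ix] at h1 h2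
      exact okM_conv h1 h2 (hM' f)
    · -- the sums
      intro w hw0
      have hS1' : ∑ f ∈ frs (mS l) C, al pr (av l) f =
          ∑ f, if f ∈ frs (mS l) C then al pr (av l) f else 0 := by
        rw [← Finset.sum_filter]
        congr 1
        ext f
        simp
      have hS2' : ∑ f ∈ frs (mS l') C', al pr (av l') f =
          ∑ f, if f ∈ frs (mS l') C' then al pr (av l') f else 0 := by
        rw [← Finset.sum_filter]
        congr 1
        ext f
        simp
      have hdec : ∀ i < 3, decide (fk (K + i) ∈ C) = Tab.bit c i := by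
        intro i hi
        have := hb i hi
        by_cases q : fk (K + i) ∈ C
        · rw [decide_eq_true q, this.mpr q]
        · rw [decide_eq_false q]
          cases r : Tab.bit c i
          · rfl
          · exact absurd (this.mp r) q
      have hdec' : ∀ i < 3, decide (fk (K + i) ∈ C') = Tab.bit c2 i := by
        intro i hi
        have := hb' i hi
        by_cases q : fk (K + i) ∈ C'
        · rw [decide_eq_true q, this.mpr q]
        · rw [decide_eq_false q]
          cases r : Tab.bit c2 i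
          · rfl
          · exact absurd (this.mp r) q
      have hif : ∀ i < 3, ∀ a : ℝ, (if fk (K + i) ∈ frs (mS l) C then a else 0) =
          if Tab.fr ph c i = true then a else 0 := by
        intro i hi a
        by_cases q : fk (K + i) ∈ frs (mS l) C
        · rw [if_pos q, if_pos ((hF i hi).mp q)]
        · rw [if_neg q, if_neg (fun h => q ((hF i hi).mpr h))]
      have hif' : ∀ i < 3, ∀ a : ℝ, (if fk (K + i) ∈ frs (mS l') C' then a else 0) =
          if Tab.fr2 d ph2 c2 i = true then a else 0 := by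
        intro i hi a
        by_cases q : fk (K + i) ∈ frs (mS l') C'
        · rw [if_pos q, if_pos ((hF' i hi).mp q)]
        · rw [if_neg q, if_neg (fun h => q ((hF' i hi).mpr h))]
      have hte : ∀ i < 3, te (decide (fk (K + i) ∈ C)) (decide (fk (K + i) ∈ C'))
          (al pr (av l) (fk (K + i))) (al pr (av l') (fk (K + i)))
            (mo (Tab.md e (ix K (fk (K + i))))) -
          (if fk (K + i) ∈ frs (mS l) C then al pr (av l) (fk (K + i)) else 0) -
          (if fk (K + i) ∈ frs (mS l') C' then al pr (av l') (fk (K + i)) else 0) =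
          ((Tab.c1 (Tab.md e i) (Tab.bit c i) (Tab.bit c2 i) (Tab.fr ph c i)
            (Tab.fr2 d ph2 c2 i) : ℤ) * Tab.lamR d W x i +
            (Tab.c2' (Tab.md e i) (Tab.bit c i) (Tab.bit c2 i) (Tab.fr ph c i)
            (Tab.fr2 d ph2 c2 i) : ℤ) * Tab.lamS d W y i) / 2 := by
        intro i hi
        rw [ix_fk K i hi, hL i hi, hL' i hi, hdec i hi, hdec' i hi, hif i hi, hif' i hi]
        exact te_conv (hM i hi).1 (hM i hi).2
      have hme : ∀ i < 3, me (al pr (av l) (fk (K + i))) (al pr (av l') (fk (K + i)))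
          (mo (Tab.md e (ix K (fk (K + i))))) =
          (Tab.m1 (Tab.md e i) : ℤ) * Tab.lamR d W x i +
            (Tab.m2 (Tab.md e i) : ℤ) * Tab.lamS d W y i := by
        intro i hi
        rw [ix_fk K i hi, hL i hi, hL' i hi]
        exact me_conv (hM i hi).1
      have t0 := hte 0 (by norm_num)
      have t1 := hte 1 (by norm_num)
      have t2 := hte 2 (by norm_num)
      have n0 := hme 0 (by norm_num)
      have n1 := hme 1 (by norm_num)
      have n2 := hme 2 (by norm_num)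
      rw [add_zero] at t0 n0
      have g0 := hT false
      have g1 := hT true
      unfold Tab.GG Tab.fa Tab.fb at g0 g1
      simp only [Tab.b2z] at g0 g1
      push_cast at g0 g1
      have hsum := Helper29.T4.sum_fk K (fun f => te (decide (f ∈ C)) (decide (f ∈ C')) (al pr (av l) f)
        (al pr (av l') f) (mo (Tab.md e (ix K f))))
      have hsumm := Helper29.T4.sum_fk K (fun f => me (al pr (av l) f) (al pr (av l') f)
        (mo (Tab.md e (ix K f))))
      have hsf := Helper29.T4.sum_fk K (fun f => if f ∈ frs (mS l) C then al pr (av l) f else 0)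
      have hsf' := Helper29.T4.sum_fk K (fun f => if f ∈ frs (mS l') C' then al pr (av l') f else 0)
      rw [hS1', hS2']
      rw [n0, n1, n2] at hsumm
      rw [hsum, hsumm, hsf, hsf', hsL, hsL']
      rcases le_total (Tab.lamS d W y 0 + Tab.lamS d W y 1 + Tab.lamS d W y 2 + w -
        ((Tab.m1 (Tab.md e 0) : ℤ) * Tab.lamR d W x 0 + (Tab.m2 (Tab.md e 0) : ℤ) *
          Tab.lamS d W y 0 + ((Tab.m1 (Tab.md e 1) : ℤ) * Tab.lamR d W x 1 +
          (Tab.m2 (Tab.md e 1) : ℤ) * Tab.lamS d W y 1) + ((Tab.m1 (Tab.md e 2) : ℤ) *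
          Tab.lamR d W x 2 + (Tab.m2 (Tab.md e 2) : ℤ) * Tab.lamS d W y 2))) 0 with hm | hm
      · rw [max_eq_left hm]
        linarith
      · rw [max_eq_right hm]
        linarith

theorem frs_mS (l : ℕ) (C : Finset (Fin 3)) : frs (mS l) C = Pool.Agent.Helper25.T4.frs l C := rfl

/-- THE PATTERN ALTERNATIVE for positions -/
theorem altR : ∃ l0 : ℕ, ∀ l l' : ℕ, l0 ≤ l → l ≤ 5 * l' → l' ≤ l →
    ∀ C C' : Finset (Fin 3), AltR l l' C C' := by
  obtain ⟨k1, hk1⟩ := Pool.Agent.Helper97.T4.win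
  refine ⟨5 * bb k1, ?_⟩
  intro l l' hl h5 hll C C'
  have hb1 : bb k1 ≤ l' := by omega
  have hb0' : bb 0 ≤ l' := (bb_strictMono.monotone (Nat.zero_le k1)).trans hb1
  have hb0 : bb 0 ≤ l := hb0'.trans hll
  have hk' : k1 ≤ era l' := le_era hb1
  obtain ⟨d, hd⟩ := Nat.exists_eq_add_of_le (era_mono hll)
  have hθ' : (199 / 1000 : ℝ) * l ≤ l' := by
    have h1 : (l : ℝ) ≤ 5 * l' := by exact_mod_cast h5
    have h2 : (0 : ℝ) ≤ l := Nat.cast_nonneg _
    linarith
  have hd4 : d ≤ 4 := by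
    have := era_dist l l' hb0' hb0 hθ'
    omega
  have hA := alt_pos (u := Pool.Agent.Helper97.T4.uu (era l') d) hb0' hll hd hd4
    (by
      unfold Pool.Agent.Helper97.T4.uu
      have : 0 ≤ Real.log 1000003 := Real.log_nonneg (by norm_num)
      positivity)
    (fun t ht => hk1 _ hk' d hd4 t ht) C C'
  refine altR_of_alt (K := era l) (fun i hi => al_x hb0 hd hi) ?_
    (fun i hi => ?_) ?_ (fun i hi => bit_iff _ _ i hi)
    (fun i hi => bit_iff _ _ i hi) hA
  · intro i _
    rw [hd]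
    exact al_y2 hb0'
  · rw [frs_mS]
    exact frs_iff _ _ i hi
  · intro i _
    rw [frs_mS, hd]
    exact frs_iff2 _ _ _ i

end Pool.Agent.Helper25.T5
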