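import Pool.Agent.Helper25.T5.Pattern

/-!
# Crude level 1 block: the probability of a pattern under weaker hypotheses on the table

Only the keys of the hashed families have to be uniform (the values of the other families may be
constant, for instance zero).
-/

namespace Pool.Agent.Helper25.T5

open Finset Pool.Agent.Helper27.T4 Pool.Agent.Helper29.T4

variable {ι κ : Type*} [Fintype ι] [DecidableEq ι]

/-- the table: independent values, uniform modulo `p f ^ a f` for the hashed families -/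
structure TableW {Ω : Type*} [Fintype Ω] (p : ι → ℕ) (σ σ' : Sd ι κ) (ρ : Ω → κ → ℕ)
    (M : κ → ℕ) : Prop where
  indep : Indep ρ M
  Ml : ∀ f, (σ.pre f).Nonempty → ∀ x ∈ Xg p σ.a, M (σ.key f (mk (σ.pre f) x)) = p f ^ σ.a f
  Mr : ∀ f, (σ'.pre f).Nonempty → ∀ x ∈ Xg p σ'.a,
    M (σ'.key f (mk (σ'.pre f) x)) = p f ^ σ'.a f
  ltl : ∀ r f, ∀ x ∈ Xg p σ.a, ρ r (σ.key f (mk (σ.pre f) x)) < p f ^ σ.a f
  ltr : ∀ r f, ∀ x ∈ Xg p σ'.a, ρ r (σ'.key f (mk (σ'.pre f) x)) < p f ^ σ'.a f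

theorem Table.toW {Ω : Type*} [Fintype Ω] {p : ι → ℕ} {σ σ' : Sd ι κ} {ρ : Ω → κ → ℕ}
    {M : κ → ℕ} (h : Table p σ σ' ρ M) : TableW p σ σ' ρ M :=
  ⟨h.indep, fun f _ => h.Ml f, fun f _ => h.Mr f, h.ltl, h.ltr⟩

theorem frs_nonempty {σ : Sd ι κ} {C : Finset ι} {f : ι} (hf : f ∈ frs σ C) :
    (σ.pre f).Nonempty := by
  rw [mem_frs] at hf
  rw [Finset.nonempty_iff_ne_empty]
  intro h
  rw [h] at hf
  exact hf (Finset.empty_subset _)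

/-- the keys of the hashed families are different (only admissible vectors count) -/
structure KInjW (p : ι → ℕ) (σ σ' : Sd ι κ) : Prop where
  left : ∀ f g, (σ.pre f).Nonempty → (σ.pre g).Nonempty → ∀ x ∈ Xg p σ.a, ∀ y ∈ Xg p σ.a,
    σ.key f (mk (σ.pre f) x) = σ.key g (mk (σ.pre g) y) →
      f = g ∧ mk (σ.pre f) x = mk (σ.pre f) y
  right : ∀ f g, (σ'.pre f).Nonempty → (σ'.pre g).Nonempty → ∀ x ∈ Xg p σ'.a,
    ∀ y ∈ Xg p σ'.a, σ'.key f (mk (σ'.pre f) x) = σ'.key g (mk (σ'.pre g) y) →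
      f = g ∧ mk (σ'.pre f) x = mk (σ'.pre f) y
  mixed : ∀ f g, (σ.pre f).Nonempty → (σ'.pre g).Nonempty → ∀ x ∈ Xg p σ.a,
    ∀ y ∈ Xg p σ'.a, σ.key f (mk (σ.pre f) x) ≠ σ'.key g (mk (σ'.pre g) y)

theorem KInj.toW {p : ι → ℕ} {σ σ' : Sd ι κ} (h : KInj p σ σ') : KInjW p σ σ' :=
  ⟨fun f g _ _ => h.left f g, fun f g _ _ => h.right f g, fun f g _ _ => h.mixed f g⟩

open Classical in
/-- the value of a fresh key which a hit demands -/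
noncomputable def vkW (p : ι → ℕ) (σ σ' : Sd ι κ) (n : ℕ) (y : Hit ι) (k : κ) : ℕ :=
  if h : ∃ f, (σ.pre f).Nonempty ∧ σ.key f (mk (σ.pre f) (hx1 y)) = k then
    vl p σ h.choose (hz y) (hx1 y h.choose)
  else if h : ∃ f, (σ'.pre f).Nonempty ∧ σ'.key f (mk (σ'.pre f) (hx2 y)) = k then
    vl p σ' h.choose (n - hz y) (hx2 y h.choose)
  else 0

theorem vkW_left {p : ι → ℕ} {σ σ' : Sd ι κ} (hK : KInjW p σ σ') {n : ℕ} {y : Hit ι}
    (h1 : hx1 y ∈ Xg p σ.a) (f : ι) (hf : (σ.pre f).Nonempty) :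
    vkW p σ σ' n y (σ.key f (mk (σ.pre f) (hx1 y))) = vl p σ f (hz y) (hx1 y f) := by
  have hex : ∃ g, (σ.pre g).Nonempty ∧
    σ.key g (mk (σ.pre g) (hx1 y)) = σ.key f (mk (σ.pre f) (hx1 y)) := ⟨f, hf, rfl⟩
  unfold vkW
  rw [dif_pos hex, (hK.left _ _ hex.choose_spec.1 hf _ h1 _ h1 hex.choose_spec.2).1]

theorem vkW_right {p : ι → ℕ} {σ σ' : Sd ι κ} (hK : KInjW p σ σ') {n : ℕ} {y : Hit ι}
    (h1 : hx1 y ∈ Xg p σ.a) (h2 : hx2 y ∈ Xg p σ'.a) (f : ι) (hf : (σ'.pre f).Nonempty) :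
    vkW p σ σ' n y (σ'.key f (mk (σ'.pre f) (hx2 y))) = vl p σ' f (n - hz y) (hx2 y f) := by
  have hno : ¬ ∃ g, (σ.pre g).Nonempty ∧
      σ.key g (mk (σ.pre g) (hx1 y)) = σ'.key f (mk (σ'.pre f) (hx2 y)) := by
    rintro ⟨g, hg0, hg⟩
    exact hK.mixed _ _ hg0 hf _ h1 _ h2 hg
  have hex : ∃ g, (σ'.pre g).Nonempty ∧
    σ'.key g (mk (σ'.pre g) (hx2 y)) = σ'.key f (mk (σ'.pre f) (hx2 y)) := ⟨f, hf, rfl⟩
  unfold vkW
  rw [dif_neg hno, dif_pos hex, (hK.right _ _ hex.choose_spec.1 hf _ h2 _ h2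
    hex.choose_spec.2).1]

theorem prod_fkkW [DecidableEq κ] {p : ι → ℕ} {σ σ' : Sd ι κ} (hK : KInjW p σ σ') {M : κ → ℕ}
    (Ml : ∀ f, (σ.pre f).Nonempty → ∀ x ∈ Xg p σ.a,
      M (σ.key f (mk (σ.pre f) x)) = p f ^ σ.a f)
    (Mr : ∀ f, (σ'.pre f).Nonempty → ∀ x ∈ Xg p σ'.a,
      M (σ'.key f (mk (σ'.pre f) x)) = p f ^ σ'.a f)
    (C C' : Finset ι) {y : Hit ι} (h1 : hx1 y ∈ Xg p σ.a) (h2 : hx2 y ∈ Xg p σ'.a) :
    ∏ k ∈ fkk σ σ' (frs σ C) (frs σ' C') y, ((M k : ℝ))⁻¹ = Wt p σ σ' C C' := by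
  unfold fkk Wt
  rw [Finset.prod_union, Finset.prod_image, Finset.prod_image]
  · congr 1
    · refine Finset.prod_congr rfl (fun f hf => ?_)
      rw [Ml f (frs_nonempty hf) _ h1]
      push_cast
      rfl
    · refine Finset.prod_congr rfl (fun f hf => ?_)
      rw [Mr f (frs_nonempty hf) _ h2]
      push_cast
      rfl
  · intro f hf g hg h
    exact (hK.right _ _ (frs_nonempty hf) (frs_nonempty hg) _ h2 _ h2 h).1
  · intro f hf g hg h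
    exact (hK.left _ _ (frs_nonempty hf) (frs_nonempty hg) _ h1 _ h1 h).1
  · rw [Finset.disjoint_left]
    intro k hk hk'
    rw [Finset.mem_image] at hk hk'
    obtain ⟨f, hf, rfl⟩ := hk
    obtain ⟨g, hg', hg⟩ := hk'
    exact hK.mixed _ _ (frs_nonempty hf) (frs_nonempty hg') _ h1 _ h2 hg.symm

theorem fkk_disjW [DecidableEq κ] {p : ι → ℕ} {σ σ' : Sd ι κ} (hK : KInjW p σ σ')
    {C C' : Finset ι}
    {T : Finset (Hit ι)} (hX : ∀ y ∈ T, hx1 y ∈ Xg p σ.a ∧ hx2 y ∈ Xg p σ'.a)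
    (hP : Pat C C' T) {y z : Hit ι} (hy : y ∈ T) (hz : z ∈ T) (hyz : y ≠ z) :
    Disjoint (fkk σ σ' (frs σ C) (frs σ' C') y) (fkk σ σ' (frs σ C) (frs σ' C') z) := by
  rw [Finset.disjoint_left]
  intro k hk hk'
  rw [fkk, Finset.mem_union, Finset.mem_image, Finset.mem_image] at hk hk'
  obtain ⟨hy1, hy2⟩ := hX y hy
  obtain ⟨hz1, hz2⟩ := hX z hz
  have hA : ∀ f ∉ C, hx1 y f ≠ hx1 z f := fun f hf h =>
    hyz (hP.2.2.1 f hf (Finset.mem_coe.mpr hy) (Finset.mem_coe.mpr hz) h)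
  have hB : ∀ f ∉ C', hx2 y f ≠ hx2 z f := fun f hf h =>
    hyz (hP.2.2.2 f hf (Finset.mem_coe.mpr hy) (Finset.mem_coe.mpr hz) h)
  rcases hk with ⟨f, hf, rfl⟩ | ⟨f, hf, rfl⟩
  · rcases hk' with ⟨g, hg, he⟩ | ⟨g, hg, he⟩
    · have hfg := hK.left _ _ (frs_nonempty hg) (frs_nonempty hf) _ hz1 _ hy1 he
      obtain rfl := hfg.1
      exact mk_ne hf hA hfg.2.symm
    · exact hK.mixed _ _ (frs_nonempty hf) (frs_nonempty hg) _ hy1 _ hz2 he.symm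
  · rcases hk' with ⟨g, hg, he⟩ | ⟨g, hg, he⟩
    · exact hK.mixed _ _ (frs_nonempty hg) (frs_nonempty hf) _ hz1 _ hy2 he
    · have hfg := hK.right _ _ (frs_nonempty hg) (frs_nonempty hf) _ hz2 _ hy2 he
      obtain rfl := hfg.1
      exact mk_ne hf hB hfg.2.symm

/-- hits with a pattern are compatible -/
theorem cpt_of_hitsW {Ω : Type*} [Fintype Ω] {p : ι → ℕ} {σ σ' : Sd ι κ} {ρ : Ω → κ → ℕ}
    {M : κ → ℕ} (hT : TableW p σ σ' ρ M) {r : Ω} {n : ℕ} {C C' : Finset ι}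
    {T : Finset (Hit ι)} (hX : ∀ y ∈ T, hx1 y ∈ Xg p σ.a ∧ hx2 y ∈ Xg p σ'.a)
    (hhit : ∀ y ∈ T, isHit p σ σ' n (ρ r) y) (hP : Pat C C' T) :
    ∀ y ∈ T, ∀ z ∈ T, Cpt p σ σ' n C C' y z := by
  intro y hy z hz
  refine ⟨hP.1 y hy z hz, hP.2.1 y hy z hz, ?_, ?_⟩
  · intro f hf
    have h1 := key_eq (hhit y hy).1 f (hT.ltl r _ _ (hX y hy).1)
    have h2 := key_eq (hhit z hz).1 f (hT.ltl r _ _ (hX z hz).1)
    rw [← h1, ← h2, mk_const hf (hP.1 y hy z hz)]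
  · intro f hf
    have h1 := key_eq (hhit y hy).2 f (hT.ltr r _ _ (hX y hy).2)
    have h2 := key_eq (hhit z hz).2 f (hT.ltr r _ _ (hX z hz).2)
    rw [← h1, ← h2, mk_const hf (hP.2.1 y hy z hz)]

open Classical in
/-- the probability of a family of `m + 1` hits for `n` with a given pattern -/
theorem pattern_probW [DecidableEq κ] {Ω : Type*} [Fintype Ω] {p : ι → ℕ} {σ σ' : Sd ι κ}
    (hK : KInjW p σ σ') {ρ : Ω → κ → ℕ} {M : κ → ℕ} (hT : TableW p σ σ' ρ M) (n : ℕ)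
    (C C' : Finset ι)
    (Y : Finset (Hit ι)) (hY : ∀ y ∈ Y, hx1 y ∈ Xg p σ.a ∧ hx2 y ∈ Xg p σ'.a) (Q : ℝ)
    (hQ : ∀ y ∈ Y, ((Y.filter (Cpt p σ σ' n C C' y)).card : ℝ) * Wt p σ σ' C C' ≤ Q) (m : ℕ) :
    (((univ : Finset Ω).filter (fun r => ∃ T ⊆ Y, T.card = m + 1 ∧
      (∀ y ∈ T, isHit p σ σ' n (ρ r) y) ∧ Pat C C' T)).card : ℝ) ≤
      Fintype.card Ω * (Y.card * Q ^ m) := by
  have hmain := tuple_bound_abs hT.indep Y (fun y r => isHit p σ σ' n (ρ r) y)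
    (fkk σ σ' (frs σ C) (frs σ' C')) (vkW p σ σ' n) ?_ (Cpt p σ σ' n C C') Q ?_ m
  · refine le_trans ?_ hmain
    apply Nat.cast_le.mpr
    refine card_filter_le_of_imp _ _ _ _ _ ?_
    rintro r _ ⟨T, hTY, hTc, hhit, hP⟩
    have hX : ∀ y ∈ T, hx1 y ∈ Xg p σ.a ∧ hx2 y ∈ Xg p σ'.a := fun y hy => hY y (hTY hy)
    exact ⟨T, hTY, hTc, hhit, cpt_of_hitsW hT hX hhit hP,
      fun y hy z hz hyz => fkk_disjW hK hX hP hy hz hyz⟩
  · intro y hy r hhit k hk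
    rw [fkk, Finset.mem_union, Finset.mem_image, Finset.mem_image] at hk
    rcases hk with ⟨f, hf, rfl⟩ | ⟨f, hf, rfl⟩
    · rw [vkW_left hK (hY y hy).1 f (frs_nonempty hf)]
      exact key_eq hhit.1 f (hT.ltl r _ _ (hY y hy).1)
    · rw [vkW_right hK (hY y hy).1 (hY y hy).2 f (frs_nonempty hf)]
      exact key_eq hhit.2 f (hT.ltr r _ _ (hY y hy).2)
  · intro y hy
    refine le_trans (le_of_eq ?_) (hQ y hy)
    rw [← nsmul_eq_mul, ← Finset.sum_const]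
    apply Finset.sum_congr rfl
    intro z hz
    have hz' := hY z (Finset.mem_filter.mp hz).1
    rw [prod_fkkW hK hT.Ml hT.Mr C C' hz'.1 hz'.2]

end Pool.Agent.Helper25.T5
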