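import Pool.Agent.Helper25.T5.AltR
import Pool.Agent.Helper25.T5.MacroEx

/-!
# T5b: the crude level 1 block with extra unhashed families

The index set is `Fin 3 ⊕ ε`: the three main families of T4' and extra families which are not
hashed and hash no main family.
-/

namespace Pool.Agent.Helper25.T5

open Finset Pool.Agent.Helper27.T4 Pool.Agent.Helper5.ET Pool.Agent.Helper98.T5
open Pool.Agent.Helper98.T4 (Mo okM te me)

variable {ε κ : Type*} [Fintype ε] [DecidableEq ε]

/-- a side with the main families of the position `l` and extra families -/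
structure ESide (σ : Sd (Fin 3 ⊕ ε) κ) (l : ℕ) : Prop where
  a : ∀ f, σ.a (Sum.inl f) = av l f
  pre : ∀ f, σ.pre (Sum.inl f) = (pre l f).map ⟨Sum.inl, Sum.inl_injective⟩
  preE : ∀ q, σ.pre (Sum.inr q) = ∅

/-- the main part of a set of families -/
def mC (C : Finset (Fin 3 ⊕ ε)) : Finset (Fin 3) := univ.filter (fun f => Sum.inl f ∈ C)

omit [Fintype ε] in
theorem mem_mC {C : Finset (Fin 3 ⊕ ε)} {f : Fin 3} : f ∈ mC C ↔ Sum.inl f ∈ C := by
  simp [mC]

theorem frs_inl {σ : Sd (Fin 3 ⊕ ε) κ} {l : ℕ} (h : ESide σ l) (C : Finset (Fin 3 ⊕ ε))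
    (f : Fin 3) : Sum.inl f ∈ frs σ C ↔ f ∈ frs (mS l) (mC C) := by
  rw [mem_frs, mem_frs, h.pre]
  show ¬ _ ⊆ C ↔ ¬ pre l f ⊆ mC C
  rw [not_iff_not, Finset.map_subset_iff_subset_preimage]
  constructor
  · intro h1 g hg
    have := h1 hg
    rw [Finset.mem_preimage] at this
    exact mem_mC.mpr this
  · intro h1 g hg
    rw [Finset.mem_preimage]
    exact mem_mC.mp (h1 hg)

theorem frs_inr {σ : Sd (Fin 3 ⊕ ε) κ} {l : ℕ} (h : ESide σ l) (C : Finset (Fin 3 ⊕ ε))
    (q : ε) : Sum.inr q ∉ frs σ C := by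
  rw [mem_frs, h.preE, not_not]
  exact Finset.empty_subset _

theorem al_inl {p : Fin 3 ⊕ ε → ℕ} (hpm : ∀ f, p (Sum.inl f) = pr f)
    {σ : Sd (Fin 3 ⊕ ε) κ} {l : ℕ} (h : ESide σ l) (f : Fin 3) :
    al p σ.a (Sum.inl f) = al pr (av l) f := by
  unfold al
  rw [h.a, hpm]

theorem sum_frs {p : Fin 3 ⊕ ε → ℕ} (hpm : ∀ f, p (Sum.inl f) = pr f)
    {σ : Sd (Fin 3 ⊕ ε) κ} {l : ℕ} (h : ESide σ l) (C : Finset (Fin 3 ⊕ ε)) :
    ∑ f ∈ frs σ C, al p σ.a f = ∑ f ∈ frs (mS l) (mC C), al pr (av l) f := by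
  have h1 : ∑ f ∈ frs σ C, al p σ.a f = ∑ f, if f ∈ frs σ C then al p σ.a f else 0 := by
    rw [Finset.sum_ite_mem, Finset.univ_inter]
  have h2 : ∑ f ∈ frs (mS l) (mC C), al pr (av l) f =
      ∑ f, if f ∈ frs (mS l) (mC C) then al pr (av l) f else 0 := by
    rw [Finset.sum_ite_mem, Finset.univ_inter]
  rw [h1, h2, Fintype.sum_sum_type]
  have h3 : ∑ q : ε, (if (Sum.inr q : Fin 3 ⊕ ε) ∈ frs σ C then al p σ.a (Sum.inr q) else 0) = 0 :=
    Finset.sum_eq_zero (fun q _ => if_neg (frs_inr h C q))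
  rw [h3, add_zero]
  refine Finset.sum_congr rfl (fun f _ => ?_)
  rw [al_inl hpm h]
  by_cases h4 : f ∈ frs (mS l) (mC C)
  · rw [if_pos h4, if_pos ((frs_inl h C f).mpr h4)]
  · rw [if_neg h4, if_neg (fun h5 => h4 ((frs_inl h C f).mp h5))]

theorem al_nonneg {ι : Type*} {p : ι → ℕ} (a : ι → ℕ) {f : ι} (hp : (p f).Prime) :
    0 ≤ al p a f := by
  unfold al
  exact mul_nonneg (Nat.cast_nonneg _) (Real.log_nonneg (by exact_mod_cast hp.one_lt.le))

theorem al_mono {ι : Type*} {p : ι → ℕ} {a b : ι → ℕ} {f : ι} (hp : (p f).Prime)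
    (h : a f ≤ b f) : al p a f ≤ al p b f := by
  unfold al
  exact mul_le_mul_of_nonneg_right (by exact_mod_cast h)
    (Real.log_nonneg (by exact_mod_cast hp.one_lt.le))

/-- the pattern alternative with extra families -/
theorem convE {p : Fin 3 ⊕ ε → ℕ} {P : ℕ} (hp : PrOK p P) (hpm : ∀ f, p (Sum.inl f) = pr f)
    {σ σ' : Sd (Fin 3 ⊕ ε) κ} {l l' : ℕ} (hS : ESide σ l) (hS' : ESide σ' l')
    (ha : σ'.a ≤ σ.a) {K0 : ℝ} (hK0 : 2 * KC (Fin 3 ⊕ ε) P ≤ Real.exp K0) (hK00 : 0 < K0)
    {L : ℕ} (hL0 : 0 < L) (w cc δ : ℝ)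
    (hw : Real.log L ≤ ∑ f, al p σ'.a f + w) (hw0 : 0 ≤ w) (hcc0 : 0 ≤ cc)
    (hδ : ∑ q, (al p σ.a (Sum.inr q) - al p σ'.a (Sum.inr q)) ≤ δ)
    (hcc : K0 + δ / 2 + w + cc ≤
      (1 / 100) * (∑ f, al pr (av l) f - ∑ f, al pr (av l') f))
    (hmeso : ∀ f, K0 + δ / 2 + w + cc + (∑ f, al pr (av l) f - ∑ f, al pr (av l') f) ≤
      al pr (av l') f / 2) (n : ℕ) {C C' : Finset (Fin 3 ⊕ ε)}
    (hA : AltR l l' (mC C) (mC C')) (hne : ¬ ((∀ f, Sum.inl f ∈ C) ∧ ∀ f, Sum.inl f ∈ C')) :
    VoidC p σ σ' L n (2 * P) C C' ∨ RareC p σ σ' L n (Real.exp (-cc)) C C' := by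
  have hP2 : 2 ≤ 2 * P := by
    have h1 := hp.le (Sum.inl 0)
    have h2 := (hp.prime (Sum.inl 0)).pos
    omega
  have hLR : (0 : ℝ) < L := by exact_mod_cast hL0
  have hNL : (L : ℝ) ≤ Real.exp (∑ f, al p σ'.a f + w) := by
    rw [← Real.exp_log hLR]
    exact Real.exp_le_exp.mpr hw
  have hprm : ∀ f, (pr f).Prime := fun f => by
    rw [← hpm f]
    exact hp.prime _
  have haf : ∀ f : Fin 3, av l' f ≤ av l f := fun f => by
    rw [← hS.a f, ← hS'.a f]
    exact ha _
  have hal0 : ∀ f, 0 ≤ al pr (av l') f := fun f => al_nonneg _ (hprm f)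
  have halm : ∀ f, al pr (av l') f ≤ al pr (av l) f := fun f => al_mono (hprm f) (haf f)
  have hδ0 : ∀ q, 0 ≤ al p σ.a (Sum.inr q) - al p σ'.a (Sum.inr q) := fun q =>
    sub_nonneg.mpr (al_mono (hp.prime _) (ha _))
  have hδ1 : 0 ≤ δ := (Finset.sum_nonneg (fun q _ => hδ0 q)).trans hδ
  -- the sum of the sizes of the main families
  set S := ∑ f, al pr (av l) f with hSd
  set S' := ∑ f, al pr (av l') f with hSd'
  have hSS : S' ≤ S := Finset.sum_le_sum (fun f _ => halm f)
  have hone : ∀ f, al pr (av l) f - al pr (av l') f ≤ S - S' := by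
    intro f
    rw [hSd, hSd', ← Finset.sum_sub_distrib]
    exact Finset.single_le_sum (f := fun f => al pr (av l) f - al pr (av l') f)
      (fun g _ => sub_nonneg.mpr (halm g)) (Finset.mem_univ f)
  have hsum' : ∑ f, al p σ'.a f = S' + ∑ q, al p σ'.a (Sum.inr q) := by
    rw [Fintype.sum_sum_type, hSd']
    congr 1
    exact Finset.sum_congr rfl (fun f _ => al_inl hpm hS' f)
  -- the extras of a choice of modes
  have hext : ∀ md : Fin 3 → Mo,
      (∀ f, okM (f ∉ frs (mS l) (mC C)) (f ∉ frs (mS l') (mC C')) (md f)) →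
      ∑ f, te (decide (f ∈ mC C)) (decide (f ∈ mC C')) (al pr (av l) f)
        (al pr (av l') f) (md f) +
        max 0 (S' + w - ∑ f, me (al pr (av l) f) (al pr (av l') f) (md f)) -
        ∑ f ∈ frs (mS l) (mC C), al pr (av l) f - ∑ f ∈ frs (mS l') (mC C'), al pr (av l') f ≤
        -(K0 + δ / 2 + cc) → RareC p σ σ' L n (Real.exp (-cc)) C C' := by
    intro md hmd hnum
    refine rareC_of_mode hp ha (Sum.elim md (fun _ => Mo.prod)) ?_ K0
      (∑ f, al p σ'.a f + w) cc hK0 hNL ?_ n
    · rintro (f | q)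
      · have := hmd f
        rw [← frs_inl hS, ← frs_inl hS'] at this
        exact this
      · exact ⟨frs_inr hS C q, frs_inr hS' C' q⟩
    · rw [sum_frs hpm hS, sum_frs hpm hS', Fintype.sum_sum_type (f := fun f =>
        te (decide (f ∈ C)) (decide (f ∈ C')) (al p σ.a f) (al p σ'.a f)
          (Sum.elim md (fun _ => Mo.prod) f)),
        Fintype.sum_sum_type (f := fun f => me (al p σ.a f) (al p σ'.a f)
          (Sum.elim md (fun _ => Mo.prod) f))]
      simp only [Sum.elim_inl, Sum.elim_inr]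
      have e1 : ∑ f : Fin 3, te (decide (Sum.inl f ∈ C)) (decide (Sum.inl f ∈ C'))
          (al p σ.a (Sum.inl f)) (al p σ'.a (Sum.inl f)) (md f) =
          ∑ f, te (decide (f ∈ mC C)) (decide (f ∈ mC C')) (al pr (av l) f)
            (al pr (av l') f) (md f) := by
        refine Finset.sum_congr rfl (fun f _ => ?_)
        rw [al_inl hpm hS, al_inl hpm hS']
        congr 1
        · exact decide_eq_decide.mpr mem_mC.symm
        · exact decide_eq_decide.mpr mem_mC.symm
      have e2 : ∑ f : Fin 3, me (al p σ.a (Sum.inl f)) (al p σ'.a (Sum.inl f)) (md f) =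
          ∑ f, me (al pr (av l) f) (al pr (av l') f) (md f) := by
        refine Finset.sum_congr rfl (fun f _ => ?_)
        rw [al_inl hpm hS, al_inl hpm hS']
      have e3 : ∑ q : ε, te (decide ((Sum.inr q : Fin 3 ⊕ ε) ∈ C))
          (decide ((Sum.inr q : Fin 3 ⊕ ε) ∈ C')) (al p σ.a (Sum.inr q))
          (al p σ'.a (Sum.inr q)) Mo.prod ≤ δ / 2 := by
        have h1 : ∑ q : ε, te (decide ((Sum.inr q : Fin 3 ⊕ ε) ∈ C))
            (decide ((Sum.inr q : Fin 3 ⊕ ε) ∈ C')) (al p σ.a (Sum.inr q))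
            (al p σ'.a (Sum.inr q)) Mo.prod ≤
            ∑ q : ε, (al p σ.a (Sum.inr q) - al p σ'.a (Sum.inr q)) / 2 := by
          refine Finset.sum_le_sum (fun q _ => ?_)
          have h2 := hδ0 q
          have h3 : 0 ≤ al p σ'.a (Sum.inr q) := al_nonneg _ (hp.prime _)
          unfold te
          simp only
          split_ifs
          · linarith
          · exact max_le (by linarith) (by linarith)
          · exact le_rfl
        rw [← Finset.sum_div] at h1
        linarith
      have e4 : ∑ q, al p σ'.a (Sum.inr q) ≤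
          ∑ q : ε, me (al p σ.a (Sum.inr q)) (al p σ'.a (Sum.inr q)) Mo.prod := by
        refine Finset.sum_le_sum (fun q _ => ?_)
        unfold me
        have := hδ0 q
        linarith
      rw [e1, e2, hsum']
      have e5 : max 0 (S' + ∑ q, al p σ'.a (Sum.inr q) + w -
          (∑ f, me (al pr (av l) f) (al pr (av l') f) (md f) +
            ∑ q : ε, me (al p σ.a (Sum.inr q)) (al p σ'.a (Sum.inr q)) Mo.prod)) ≤
          max 0 (S' + w - ∑ f, me (al pr (av l) f) (al pr (av l') f) (md f)) := by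
        apply max_le_max le_rfl
        linarith
      linarith
  rcases hA with ⟨f, h1, h2, h3, h4⟩ | ⟨f, h1, h2, h3, h4, h5⟩ | ⟨f, h1, h2, h3, h4, h5⟩ | h |
    ⟨md, hmd, hnum⟩
  · left
    exact void1 hp ha (Sum.inl f) (fun h => h1 ((frs_inl hS C f).mp h))
      (fun h => h2 ((frs_inl hS' C' f).mp h)) (mem_mC.mp h3) (fun h => h4 (mem_mC.mpr h))
  · left
    refine void2 hp ha (Sum.inl f) (fun h => h1 ((frs_inl hS C f).mp h))
      (fun h => h2 ((frs_inl hS' C' f).mp h)) (fun h => h3 (mem_mC.mpr h)) (mem_mC.mp h4) ?_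
    rw [al_inl hpm hS, al_inl hpm hS']
    exact h5
  · left
    refine void3 hp ha (Sum.inl f) (fun h => h1 ((frs_inl hS C f).mp h))
      (fun h => h2 ((frs_inl hS' C' f).mp h)) (fun h => h3 (mem_mC.mpr h))
      (fun h => h4 (mem_mC.mpr h)) ?_
    rw [hS.a, hS'.a]
    exact h5
  · -- every main family is constant and not fresh on one side
    have hcov : ∀ f, (f ∈ mC C ∧ f ∉ frs (mS l) (mC C)) ∨
        (f ∈ mC C' ∧ f ∉ frs (mS l') (mC C')) := by
      intro f
      by_contra hno
      push Not at hno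
      have hg : (if f ∈ mC C ∧ f ∉ frs (mS l) (mC C) then al pr (av l) f
          else if f ∈ mC C' ∧ f ∉ frs (mS l') (mC C') then al pr (av l') f else 0) = 0 := by
        rw [if_neg (fun h1 => h1.2 (hno.1 h1.1)), if_neg (fun h1 => h1.2 (hno.2 h1.1))]
      have h1 : ∑ g, (if g ∈ mC C ∧ g ∉ frs (mS l) (mC C) then al pr (av l) g
          else if g ∈ mC C' ∧ g ∉ frs (mS l') (mC C') then al pr (av l') g else 0) ≤
          S - al pr (av l) f := by
        rw [hSd, ← Finset.add_sum_erase _ _ (Finset.mem_univ f), hg, zero_add,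
          ← Finset.add_sum_erase _ (fun g => al pr (av l) g) (Finset.mem_univ f),
          add_sub_cancel_left]
        refine Finset.sum_le_sum (fun g _ => ?_)
        split_ifs
        · exact le_rfl
        · exact halm g
        · exact (hal0 g).trans (halm g)
      have h2 := hmeso f
      have h3 := halm f
      have h4 := hal0 f
      nlinarith
    by_cases hv1 : ∃ f, f ∉ frs (mS l) (mC C) ∧ f ∉ frs (mS l') (mC C') ∧ f ∈ mC C ∧ f ∉ mC C'
    · obtain ⟨f, h1, h2, h3, h4⟩ := hv1
      left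
      exact void1 hp ha (Sum.inl f) (fun h => h1 ((frs_inl hS C f).mp h))
        (fun h => h2 ((frs_inl hS' C' f).mp h)) (mem_mC.mp h3) (fun h => h4 (mem_mC.mpr h))
    by_cases hv2 : ∃ f, f ∉ frs (mS l) (mC C) ∧ f ∉ frs (mS l') (mC C') ∧ f ∉ mC C ∧ f ∈ mC C'
    · obtain ⟨f, h1, h2, h3, h4⟩ := hv2
      left
      refine void2 hp ha (Sum.inl f) (fun h => h1 ((frs_inl hS C f).mp h))
        (fun h => h2 ((frs_inl hS' C' f).mp h)) (fun h => h3 (mem_mC.mpr h)) (mem_mC.mp h4) ?_
      rw [al_inl hpm hS, al_inl hpm hS']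
      have h5 := hone f
      have h6 := hmeso f
      have h7 := hal0 f
      linarith
    push Not at hv1 hv2
    by_cases hfr : ∃ f, f ∈ frs (mS l) (mC C) ∨ f ∈ frs (mS l') (mC C')
    · obtain ⟨f0, hf0⟩ := hfr
      right
      refine hext (fun f => if f ∈ mC C ∧ f ∉ frs (mS l) (mC C) then Mo.mA else Mo.mB) ?_ ?_
      · intro f
        by_cases h1 : f ∈ mC C ∧ f ∉ frs (mS l) (mC C)
        · rw [if_pos h1]
          exact h1.2
        · rw [if_neg h1]
          exact ((hcov f).resolve_left h1).2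
      · have hS1 : ∑ f ∈ frs (mS l) (mC C), al pr (av l) f =
            ∑ f, if f ∈ frs (mS l) (mC C) then al pr (av l) f else 0 := by
          rw [Finset.sum_ite_mem, Finset.univ_inter]
        have hS2 : ∑ f ∈ frs (mS l') (mC C'), al pr (av l') f =
            ∑ f, if f ∈ frs (mS l') (mC C') then al pr (av l') f else 0 := by
          rw [Finset.sum_ite_mem, Finset.univ_inter]
        -- the contribution of one family
        have hloc : ∀ f, te (decide (f ∈ mC C)) (decide (f ∈ mC C')) (al pr (av l) f)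
            (al pr (av l') f) (if f ∈ mC C ∧ f ∉ frs (mS l) (mC C) then Mo.mA else Mo.mB) -
            (if f ∈ frs (mS l) (mC C) then al pr (av l) f else 0) -
            (if f ∈ frs (mS l') (mC C') then al pr (av l') f else 0) ≤
            if f = f0 then -(al pr (av l') f0 / 2) else 0 := by
          intro f
          have b1 := hal0 f
          have b2 := halm f
          by_cases h1 : f ∈ mC C ∧ f ∉ frs (mS l) (mC C)
          · rw [if_pos h1, if_neg h1.2]
            unfold te
            simp only [h1.1, decide_true, if_true, zero_add, sub_zero]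
            by_cases h2 : f ∈ frs (mS l') (mC C')
            · rw [if_pos h2]
              by_cases h3 : f = f0
              · rw [if_pos h3, ← h3]
                split_ifs <;> linarith
              · rw [if_neg h3]
                split_ifs <;> linarith
            · have h3 : f ∈ mC C' := hv1 f h1.2 h2 h1.1
              have h4 : f ≠ f0 := by
                rintro rfl
                rcases hf0 with h5 | h5
                · exact h1.2 h5
                · exact h2 h5
              rw [if_neg h2, if_neg h4]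
              simp only [h3, decide_true, if_true, sub_zero, le_refl]
          · have h2 := (hcov f).resolve_left h1
            rw [if_neg h1, if_neg h2.2]
            unfold te
            simp only [h2.1, decide_true, if_true, add_zero, sub_zero]
            by_cases h3 : f ∈ frs (mS l) (mC C)
            · rw [if_pos h3]
              by_cases h4 : f = f0
              · rw [if_pos h4, ← h4]
                split_ifs <;> linarith
              · rw [if_neg h4]
                split_ifs <;> linarith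
            · exfalso
              by_cases h4 : f ∈ mC C
              · exact h1 ⟨h4, h3⟩
              · exact hv2 f h3 h2.2 h4 h2.1
        have hmain : ∑ f, te (decide (f ∈ mC C)) (decide (f ∈ mC C')) (al pr (av l) f)
            (al pr (av l') f) (if f ∈ mC C ∧ f ∉ frs (mS l) (mC C) then Mo.mA else Mo.mB) -
            ∑ f ∈ frs (mS l) (mC C), al pr (av l) f -
            ∑ f ∈ frs (mS l') (mC C'), al pr (av l') f ≤ -(al pr (av l') f0 / 2) := by
          rw [hS1, hS2, ← Finset.sum_sub_distrib, ← Finset.sum_sub_distrib]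
          refine (Finset.sum_le_sum (fun f _ => hloc f)).trans ?_
          rw [Finset.sum_ite_eq' Finset.univ f0]
          simp
        have hmeS : S' ≤ ∑ f, me (al pr (av l) f) (al pr (av l') f)
            (if f ∈ mC C ∧ f ∉ frs (mS l) (mC C) then Mo.mA else Mo.mB) := by
          rw [hSd']
          refine Finset.sum_le_sum (fun f _ => ?_)
          split_ifs
          · exact halm f
          · exact le_rfl
        have hmax : max 0 (S' + w - ∑ f, me (al pr (av l) f) (al pr (av l') f)
            (if f ∈ mC C ∧ f ∉ frs (mS l) (mC C) then Mo.mA else Mo.mB)) ≤ w :=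
          max_le hw0 (by linarith)
        have h1 := hmeso f0
        linarith
    · exfalso
      push Not at hfr
      apply hne
      refine ⟨fun f => mem_mC.mp ?_, fun f => mem_mC.mp ?_⟩
      · rcases hcov f with h1 | h1
        · exact h1.1
        · by_contra h2
          exact hv2 f (hfr f).1 (hfr f).2 h2 h1.1
      · rcases hcov f with h1 | h1
        · exact hv1 f (hfr f).1 (hfr f).2 h1.1
        · exact h1.1
  · right
    refine hext md hmd ?_
    have h1 := hnum w hw0
    linarith

end Pool.Agent.Helper25.T5
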