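import Pool.Agent.Helper25.T5.ConvE
import Pool.Agent.Helper29.T5.Far

/-!
# T5b: FARE, the crude level 1 block with extra unhashed families

Main positions `l' ≤ l`, `l - l'` at least a constant and at most `l / 100`; the extra families grow
by at most `(l - l') / 100` in logarithmic size.  With probability `1 - exp (-l)` every large set of
hits (with different `z`) for some `n < N` contains `m + 1` hits on which all main coordinates of
both sides are constant.
-/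

namespace Pool.Agent.Helper25.T5

open Finset Pool.Agent.Helper27.T4 Pool.Agent.Helper5.ET Pool.Agent.Helper98.T5

variable {ε : Type*} [Fintype ε] [DecidableEq ε]

theorem log_pr_le (f : Fin 3) : 13 ≤ Real.log (pr f) ∧ Real.log (pr f) ≤ 14 := by
  have h := Pool.Agent.Helper36.T4.log_pr f
  constructor
  · linarith [h.1]
  · linarith [h.2]

open Classical in
/-- FARE -/
theorem farE (P : ℕ) : ∃ l0 : ℕ, ∀ l l' : ℕ, l0 ≤ l → l0 ≤ l - l' → 100 * (l - l') ≤ l →
    ∀ {Ω κ : Type*} [Fintype Ω] {ρ : Ω → κ → ℕ} {M : κ → ℕ}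
    (p : Fin 3 ⊕ ε → ℕ) (_ : PrOK p P) (_ : ∀ f, p (Sum.inl f) = pr f)
    (σ σ' : Sd (Fin 3 ⊕ ε) κ) (_ : ESide σ l) (_ : ESide σ' l') (_ : σ'.a ≤ σ.a)
    (_ : KInjW p σ σ') (_ : TableW p σ σ' ρ M) (L N m : ℕ)
    (_ : ∑ q, (al p σ.a (Sum.inr q) - al p σ'.a (Sum.inr q)) ≤ 1 / 100 * ((l : ℝ) - l'))
    (_ : ∑ q, al p σ.a (Sum.inr q) ≤ 50 * l)
    (_ : (L : ℝ) ≤ (∏ f, (p f : ℝ) ^ σ'.a f) * Real.exp (8 / 100 * ((l : ℝ) - l')))
    (_ : (N : ℝ) ≤ Real.exp (100 * l))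
    (_ : (20000 + 100 * Fintype.card ε) * l ≤ m * (l - l')) (_ : 2 * P ≤ m),
    (((univ : Finset Ω).filter (fun r => ∃ n < N, ∃ T ⊆ YY p σ σ' L n,
      (m + 1) ^ 2 ^ (2 * (3 + Fintype.card ε)) ≤ T.card ∧
      (∀ y ∈ T, isHit p σ σ' n (ρ r) y) ∧ Set.InjOn hz (T : Set (Hit (Fin 3 ⊕ ε))) ∧
      ¬ ∃ T' ⊆ T, T'.card = m + 1 ∧ ∃ C C' : Finset (Fin 3 ⊕ ε),
        ((∀ f, Sum.inl f ∈ C) ∧ ∀ f, Sum.inl f ∈ C') ∧ Pat C C' T')).card : ℝ) ≤
      Fintype.card Ω * Real.exp (-(l : ℝ)) := by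
  obtain ⟨l1, h1⟩ := altR
  obtain ⟨y0, h2⟩ := Pool.Agent.Helper97.ET.cnt_ge
  set K0 : ℝ := |Real.log (2 * KC (Fin 3 ⊕ ε) P)| + 1 with hK0
  obtain ⟨k, hk⟩ := exists_nat_ge (200 * K0)
  refine ⟨max (max l1 (2 * y0)) (k + 1), ?_⟩
  intro l l' hl hD hml Ω κ _ ρ M p hp hpm σ σ' hS hS' ha hK hT L N m hδ hEl hL hN hm hPm
  have hl1 : l1 ≤ l := (le_max_left _ _).trans ((le_max_left _ _).trans hl)
  have hl2 : 2 * y0 ≤ l := (le_max_right _ _).trans ((le_max_left _ _).trans hl)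
  have hDk : k + 1 ≤ l - l' := (le_max_right _ _).trans hD
  have hll : l' ≤ l := by omega
  have hy0 : y0 ≤ l' := by omega
  have hDR : ((l - l' : ℕ) : ℝ) = (l : ℝ) - l' := Nat.cast_sub hll
  have hD1 : 200 * K0 ≤ (l : ℝ) - l' := by
    rw [← hDR]
    refine hk.trans ?_
    exact_mod_cast (show k ≤ l - l' by omega)
  have hK01 : 1 ≤ K0 := by
    rw [hK0]
    have := abs_nonneg (Real.log (2 * KC (Fin 3 ⊕ ε) P))
    linarith
  have hKC : 0 < KC (Fin 3 ⊕ ε) P := by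
    have h3 : 0 < P := (hp.prime (Sum.inl 0)).pos.trans_le (hp.le _)
    unfold KC
    positivity
  have hK0e : 2 * KC (Fin 3 ⊕ ε) P ≤ Real.exp K0 := by
    rw [← Real.exp_log (show 0 < 2 * KC (Fin 3 ⊕ ε) P by positivity)]
    apply Real.exp_le_exp.mpr
    have := le_abs_self (Real.log (2 * KC (Fin 3 ⊕ ε) P))
    linarith
  have hm100 : 100 * ((l : ℝ) - l') ≤ l := by
    rw [← hDR]
    exact_mod_cast hml
  have hl1R : (1 : ℝ) ≤ l := by
    exact_mod_cast (show 1 ≤ l by omega)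
  -- sizes of the main families
  have hs : ∀ j : ℕ, ∑ f, al pr (av j) f = Real.log (Nj j) := by
    intro j
    rw [← Pool.Agent.Helper36.T4.sum_al]
    rfl
  have hlow : 13 * ((l : ℝ) - l') ≤ ∑ f, al pr (av l) f - ∑ f, al pr (av l') f := by
    rw [hs, hs]
    have := Pool.Agent.Helper25.T4.log_Nj_ge hll
    linarith
  have hup : ∑ f, al pr (av l) f - ∑ f, al pr (av l') f ≤ 14 * ((l : ℝ) - l') := by
    have hc1 : ∑ f : Fin 3, (cnt f l : ℝ) = l := by
      exact_mod_cast Pool.Agent.Helper36.T4.cnt_total l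
    have hc2 : ∑ f : Fin 3, (cnt f l' : ℝ) = l' := by
      exact_mod_cast Pool.Agent.Helper36.T4.cnt_total l'
    rw [← Finset.sum_sub_distrib, ← hc1, ← hc2, ← Finset.sum_sub_distrib, Finset.mul_sum]
    refine Finset.sum_le_sum (fun f _ => ?_)
    have h3 : (cnt f l' : ℝ) ≤ cnt f l := by
      exact_mod_cast Pool.Agent.Helper25.T4.cnt_mono f hll
    have h4 := (log_pr_le f).2
    show (cnt f l : ℝ) * Real.log (pr f) - (cnt f l' : ℝ) * Real.log (pr f) ≤ _
    nlinarith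
  have hfam : ∀ f, (l' : ℝ) * 2 ≤ al pr (av l') f := by
    intro f
    have h3 := (h2 l' hy0 f).1
    have h4 := (log_pr_le f).1
    have h5 : (0 : ℝ) ≤ l' := Nat.cast_nonneg _
    show _ ≤ (cnt f l' : ℝ) * Real.log (pr f)
    nlinarith
  rcases Nat.eq_zero_or_pos L with rfl | hLpos
  · have hempty : (univ : Finset Ω).filter (fun r => ∃ n < N, ∃ T ⊆ YY p σ σ' 0 n,
        (m + 1) ^ 2 ^ (2 * (3 + Fintype.card ε)) ≤ T.card ∧
        (∀ y ∈ T, isHit p σ σ' n (ρ r) y) ∧ Set.InjOn hz (T : Set (Hit (Fin 3 ⊕ ε))) ∧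
        ¬ ∃ T' ⊆ T, T'.card = m + 1 ∧ ∃ C C' : Finset (Fin 3 ⊕ ε),
          ((∀ f, Sum.inl f ∈ C) ∧ ∀ f, Sum.inl f ∈ C') ∧ Pat C C' T') = ∅ := by
      apply Finset.filter_eq_empty_iff.mpr
      rintro r _ ⟨n, _, T, hTY, hcard, _⟩
      have h3 : YY p σ σ' 0 n = ∅ := by
        apply Finset.eq_empty_of_forall_notMem
        intro y hy
        have h4 := mem_YY.mp hy
        have h5 := h4.1
        have h6 := h4.2.2.2
        omega
      rw [h3, Finset.subset_empty] at hTY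
      rw [hTY, Finset.card_empty] at hcard
      have : 0 < (m + 1) ^ 2 ^ (2 * (3 + Fintype.card ε)) := by positivity
      omega
    rw [hempty, Finset.card_empty, Nat.cast_zero]
    exact mul_nonneg (Nat.cast_nonneg _) (Real.exp_pos _).le
  · have hLR : (0 : ℝ) < L := by exact_mod_cast hLpos
    have hprodexp : ∀ τ : Sd (Fin 3 ⊕ ε) κ,
        (∏ f, (p f : ℝ) ^ τ.a f) = Real.exp (∑ f, al p τ.a f) := by
      intro τ
      rw [Real.exp_sum]
      exact Finset.prod_congr rfl (fun f _ => (exp_al _ (hp.prime f)).symm)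
    have hlog : Real.log L ≤ ∑ f, al p σ'.a f + 8 / 100 * ((l : ℝ) - l') := by
      rw [Real.log_le_iff_le_exp hLR, Real.exp_add, ← hprodexp σ']
      exact hL
    have hsumE : ∀ (τ : Sd (Fin 3 ⊕ ε) κ) (j : ℕ), ESide τ j →
        ∑ f, al p τ.a f = ∑ f, al pr (av j) f + ∑ q, al p τ.a (Sum.inr q) := by
      intro τ j hτ
      rw [Fintype.sum_sum_type]
      congr 1
      exact Finset.sum_congr rfl (fun f _ => al_inl hpm hτ f)
    have htot : ∀ j : ℕ, ∑ f, al pr (av j) f ≤ 14 * j := by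
      intro j
      have hc1 : ∑ f : Fin 3, (cnt f j : ℝ) = j := by
        exact_mod_cast Pool.Agent.Helper36.T4.cnt_total j
      rw [← hc1, Finset.mul_sum]
      refine Finset.sum_le_sum (fun f _ => ?_)
      have h4 := (log_pr_le f).2
      have h5 : (0 : ℝ) ≤ cnt f j := Nat.cast_nonneg _
      show (cnt f j : ℝ) * Real.log (pr f) ≤ _
      nlinarith
    have hmR : ((20000 + 100 * (Fintype.card ε : ℝ)) * l) ≤ m * ((l : ℝ) - l') := by
      have h3 : (((20000 + 100 * Fintype.card ε) * l : ℕ) : ℝ) ≤ ((m * (l - l') : ℕ) : ℝ) :=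
        Nat.cast_le.mpr hm
      rw [Nat.cast_mul, Nat.cast_mul, hDR, Nat.cast_add, Nat.cast_mul] at h3
      exact h3
    have hmain := macro_exp_ex (p := p) (fun f => (hp.prime f).one_lt.le) hK hT L N (2 * P) m
      100 l (4 / 100 * ((l : ℝ) - l')) hl1R hN ?_ ?_ ?_ hPm
      (fun C C' => (∀ f, Sum.inl f ∈ C) ∧ ∀ f, Sum.inl f ∈ C')
      (fun n _ C C' => ?_)
    · refine le_trans (Nat.cast_le.mpr (card_filter_le_of_imp _ _ _ _ _ ?_)) hmain
      rintro r _ ⟨n, hn, T, hTY, hc, hh, hi, hno⟩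
      refine ⟨n, hn, T, hTY, ?_, hh, hi, hno⟩
      rw [Fintype.card_sum, Fintype.card_fin]
      exact hc
    · rw [hprodexp, hsumE σ l hS]
      apply Real.exp_le_exp.mpr
      have := htot l
      linarith
    · rw [hprodexp, hsumE σ' l' hS']
      apply Real.exp_le_exp.mpr
      have h3 := htot l'
      have h4 : (l' : ℝ) ≤ l := by exact_mod_cast hll
      have h5 : ∑ q, al p σ'.a (Sum.inr q) ≤ ∑ q, al p σ.a (Sum.inr q) :=
        Finset.sum_le_sum (fun q _ => al_mono (hp.prime _) (ha _))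
      linarith
    · rw [Fintype.card_sum, Fintype.card_fin]
      push_cast
      have h5 : (0 : ℝ) ≤ Fintype.card ε := Nat.cast_nonneg _
      nlinarith
    · by_cases hne : (∀ f, Sum.inl f ∈ C) ∧ ∀ f, Sum.inl f ∈ C'
      · exact Or.inl hne
      · right
        have h5 : l ≤ 5 * l' := by omega
        refine convE hp hpm hS hS' ha hK0e (by linarith) hLpos (8 / 100 * ((l : ℝ) - l'))
          (4 / 100 * ((l : ℝ) - l')) (1 / 100 * ((l : ℝ) - l')) hlog (by linarith)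
          (by linarith) hδ (by linarith) (fun f => ?_) n (h1 l l' hl1 h5 hll _ _) hne
        have h6 := hfam f
        linarith

open Classical in
/-- hits with constant main coordinates of the side of `z` are at most two, if the window is not
larger than the main modulus -/
theorem void_main {P : ℕ} {κ : Type*} {p : Fin 3 ⊕ ε → ℕ} (hp : PrOK p P)
    (hpm : ∀ f, p (Sum.inl f) = pr f) {σ σ' : Sd (Fin 3 ⊕ ε) κ} {l : ℕ} (hS : ESide σ l)
    {L n : ℕ} {C C' : Finset (Fin 3 ⊕ ε)} (hC : ∀ f, Sum.inl f ∈ C) (hL : L ≤ Nj l) :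
    VoidC p σ σ' L n 2 C C' := by
  refine void_z hp (univ.map ⟨Sum.inl, Sum.inl_injective⟩) ∅ (Finset.disjoint_empty_right _)
    ?_ (by simp) (∑ f, al pr (av l) f) ?_ ?_
  · intro f hf
    obtain ⟨g, _, rfl⟩ := Finset.mem_map.mp hf
    refine ⟨hC g, ?_⟩
    show Sum.inl g ∉ frs σ C
    rw [mem_frs, not_not, hS.pre]
    intro x hx
    obtain ⟨g', _, rfl⟩ := Finset.mem_map.mp hx
    exact hC g'
  · have h1 : Real.exp (∑ f, al pr (av l) f) = Nj l := by
      rw [Real.exp_sum]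
      unfold Nj NN
      push_cast
      exact Finset.prod_congr rfl (fun f _ => exp_al _ (Pool.Agent.Helper5.ET.pr_prime f))
    rw [h1]
    exact_mod_cast hL
  · rw [Finset.sum_map, Finset.sum_empty, add_zero]
    exact le_of_eq (Finset.sum_congr rfl (fun f _ => (al_inl hpm hS f).symm))

end Pool.Agent.Helper25.T5
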