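import Pool.Agent.Helper27.T4.Crt
import Pool.Agent.Helper27.T4.Ind3
import Pool.Agent.Helper29.T4.Pat
import Pool.Agent.Helper29.T4.Pin2

/-!
# Crude level 1 block: definitions (any finite set of families, any hash graphs, any windows)

A pair of positions is described by two sides `σ`, `σ'` (exponents, hash graph, keys).  A hit for
`n` is `(z, x, x')`: `z` has the residues `Lg x_f + w(key)` modulo `p_f ^ a_f`, and `n - z` has the
residues of `x'`.  Nothing else is known about `z` and `n - z`, except `n - z < L`.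
-/

namespace Pool.Agent.Helper25.T5

open Finset Pool.Agent.Helper27.T4

variable {ι κ : Type*}

/-- one side of a pair: exponents, hash graph, keys -/
structure Sd (ι κ : Type*) where
  /-- number of digits of a family -/
  a : ι → ℕ
  /-- the families hashing a family -/
  pre : ι → Finset ι
  /-- the key of the hash value of a family at a masked vector -/
  key : ι → (ι → ℕ) → κ

/-- masked vector -/
def mk [DecidableEq ι] (P : Finset ι) (x : ι → ℕ) : ι → ℕ := fun g => if g ∈ P then x g else 0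

/-- admissible values: `1` or a small prime -/
def Ug (p a : ι → ℕ) (f : ι) : Finset ℕ :=
  insert 1 ((range (p f ^ a f)).filter
    (fun y => y.Prime ∧ y.Coprime (p f) ∧ y ^ 2 < p f ^ a f))

/-- admissible vectors -/
def Xg [Fintype ι] [DecidableEq ι] (p a : ι → ℕ) : Finset (ι → ℕ) := Fintype.piFinset (Ug p a)

/-- `(z, x, x')` -/
abbrev Hit (ι : Type*) : Type _ := ℕ × (ι → ℕ) × (ι → ℕ)

/-- the element `z` -/
abbrev hz (y : Hit ι) : ℕ := y.1
/-- the vector of `z` -/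
abbrev hx1 (y : Hit ι) : ι → ℕ := y.2.1
/-- the vector of `n - z` -/
abbrev hx2 (y : Hit ι) : ι → ℕ := y.2.2

/-- `z` has the residues belonging to `x` -/
def Res [DecidableEq ι] (p : ι → ℕ) (σ : Sd ι κ) (w : κ → ℕ) (z : ℕ) (x : ι → ℕ) : Prop :=
  ∀ f, (z : ZMod (p f ^ σ.a f)) = Lg (p f) (σ.a f) (x f) +
    ((w (σ.key f (mk (σ.pre f) x)) : ℕ) : ZMod (p f ^ σ.a f))

/-- a hit for `n` -/
def isHit [DecidableEq ι] (p : ι → ℕ) (σ σ' : Sd ι κ) (n : ℕ) (w : κ → ℕ) (y : Hit ι) : Prop :=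
  Res p σ w (hz y) (hx1 y) ∧ Res p σ' w (n - hz y) (hx2 y)

/-- the candidates for hits for `n` -/
def YY [Fintype ι] [DecidableEq ι] (p : ι → ℕ) (σ σ' : Sd ι κ) (L n : ℕ) : Finset (Hit ι) :=
  ((range (n + 1)) ×ˢ (Xg p σ.a) ×ˢ (Xg p σ'.a)).filter (fun y => n < hz y + L)

/-- the value of a key, determined by `z` and `x f` -/
noncomputable def vl (p : ι → ℕ) (σ : Sd ι κ) (f : ι) (z x : ℕ) : ℕ :=
  ((z : ZMod (p f ^ σ.a f)) - Lg (p f) (σ.a f) x).val

/-- fresh families -/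
def frs [Fintype ι] [DecidableEq ι] (σ : Sd ι κ) (C : Finset ι) : Finset ι :=
  univ.filter (fun f => ¬ σ.pre f ⊆ C)

/-- compatible hits: the constant coordinates and the hash values of the families which are not
fresh agree -/
def Cpt [Fintype ι] [DecidableEq ι] (p : ι → ℕ) (σ σ' : Sd ι κ) (n : ℕ) (C C' : Finset ι)
    (y z : Hit ι) : Prop :=
  (∀ f ∈ C, hx1 y f = hx1 z f) ∧ (∀ f ∈ C', hx2 y f = hx2 z f) ∧
  (∀ f, f ∉ frs σ C → vl p σ f (hz y) (hx1 y f) = vl p σ f (hz z) (hx1 z f)) ∧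
  (∀ f, f ∉ frs σ' C' → vl p σ' f (n - hz y) (hx2 y f) = vl p σ' f (n - hz z) (hx2 z f))

/-- the pattern -/
def Pat (C C' : Finset ι) (T : Finset (Hit ι)) : Prop :=
  (∀ y ∈ T, ∀ z ∈ T, ∀ f ∈ C, hx1 y f = hx1 z f) ∧
  (∀ y ∈ T, ∀ z ∈ T, ∀ f ∈ C', hx2 y f = hx2 z f) ∧
  (∀ f ∉ C, Set.InjOn (fun y : Hit ι => hx1 y f) (T : Set (Hit ι))) ∧
  (∀ f ∉ C', Set.InjOn (fun y : Hit ι => hx2 y f) (T : Set (Hit ι)))

/-- the weight of the fresh keys of a pattern -/
noncomputable def Wt [Fintype ι] [DecidableEq ι] (p : ι → ℕ) (σ σ' : Sd ι κ)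
    (C C' : Finset ι) : ℝ :=
  (∏ f ∈ frs σ C, ((p f : ℝ) ^ σ.a f)⁻¹) * ∏ f ∈ frs σ' C', ((p f : ℝ) ^ σ'.a f)⁻¹

/-- a pattern which allows at most `k0` hits with distinct `z` -/
def VoidC [Fintype ι] [DecidableEq ι] (p : ι → ℕ) (σ σ' : Sd ι κ) (L n k0 : ℕ)
    (C C' : Finset ι) : Prop :=
  ∀ T ⊆ YY p σ σ' L n, (∀ y ∈ T, ∀ z ∈ T, Cpt p σ σ' n C C' y z) → Pat C C' T →
    Set.InjOn hz (T : Set (Hit ι)) → T.card ≤ k0

open Classical in
/-- a pattern for which the expected number of hits is at most `Q` -/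
def RareC [Fintype ι] [DecidableEq ι] (p : ι → ℕ) (σ σ' : Sd ι κ) (L n : ℕ) (Q : ℝ)
    (C C' : Finset ι) : Prop :=
  ∀ y ∈ YY p σ σ' L n,
    (((YY p σ σ' L n).filter (Cpt p σ σ' n C C' y)).card : ℝ) * Wt p σ σ' C C' ≤ Q

end Pool.Agent.Helper25.T5
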