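import Pool.Agent.Helper25.T5.Pattern
import Mathlib.Analysis.SpecialFunctions.Exp
import Mathlib.Analysis.Complex.ExponentialBounds

/-!
# Crude level 1 block: from the pattern alternative to the number of representations
-/

namespace Pool.Agent.Helper25.T5

open Finset Pool.Agent.Helper27.T4 Pool.Agent.Helper29.T4

variable {ι κ : Type*} [Fintype ι] [DecidableEq ι]

open Classical in
/-- the `z` which have, together with `n - z`, the residues of admissible vectors -/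
noncomputable def repZ (p : ι → ℕ) (σ σ' : Sd ι κ) (L n : ℕ) (w : κ → ℕ) : Finset ℕ :=
  (range (n + 1)).filter (fun z => n < z + L ∧ ∃ x ∈ Xg p σ.a, ∃ x' ∈ Xg p σ'.a,
    Res p σ w z x ∧ Res p σ' w (n - z) x')

/-- every `z` is the first coordinate of a hit -/
theorem hits_of_repZ (p : ι → ℕ) (σ σ' : Sd ι κ) (L n : ℕ) (w : κ → ℕ) :
    ∃ T ⊆ YY p σ σ' L n, T.card = (repZ p σ σ' L n w).card ∧
      (∀ y ∈ T, isHit p σ σ' n w y) ∧ Set.InjOn hz (T : Set (Hit ι)) := by
  classical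
  have hex : ∀ z : ℕ, ∃ y : Hit ι, hz y = z ∧ (z ∈ repZ p σ σ' L n w →
      y ∈ YY p σ σ' L n ∧ isHit p σ σ' n w y) := by
    intro z
    by_cases hzr : z ∈ repZ p σ σ' L n w
    · have h := (Finset.mem_filter.mp hzr)
      obtain ⟨x, hx, x', hx', h1, h2⟩ := h.2.2
      refine ⟨(z, x, x'), rfl, fun _ => ⟨?_, h1, h2⟩⟩
      rw [mem_YY]
      exact ⟨Nat.lt_succ_iff.mp (Finset.mem_range.mp h.1), hx, hx', h.2.1⟩
    · exact ⟨(z, fun _ => 0, fun _ => 0), rfl, fun h => absurd h hzr⟩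
  choose g hg using hex
  have hginj : Function.Injective g := by
    intro a b hab
    rw [← (hg a).1, ← (hg b).1, hab]
  refine ⟨(repZ p σ σ' L n w).image g, ?_, Finset.card_image_of_injective _ hginj, ?_, ?_⟩
  · intro y hy
    obtain ⟨z, hz, rfl⟩ := Finset.mem_image.mp hy
    exact ((hg z).2 hz).1
  · intro y hy
    obtain ⟨z, hz, rfl⟩ := Finset.mem_image.mp hy
    exact ((hg z).2 hz).2
  · intro y hy y' hy' he
    rw [Finset.mem_coe] at hy hy'
    obtain ⟨z, _, rfl⟩ := Finset.mem_image.mp hy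
    obtain ⟨z', _, rfl⟩ := Finset.mem_image.mp hy'
    have he' : hz (g z) = hz (g z') := he
    rw [(hg z).1, (hg z').1] at he'
    rw [he']

/-! ## sizes -/

omit [Fintype ι] [DecidableEq ι] in
theorem card_Ug_le {p a : ι → ℕ} {f : ι} (hp : 1 ≤ p f) : (Ug p a f).card ≤ p f ^ a f := by
  have h1 : Ug p a f ⊆ Finset.Icc 1 (p f ^ a f) := by
    intro y hy
    unfold Ug at hy
    rw [Finset.mem_insert, Finset.mem_filter, Finset.mem_range] at hy
    rw [Finset.mem_Icc]
    rcases hy with rfl | ⟨h, h2, _⟩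
    · exact ⟨le_rfl, Nat.one_le_pow _ _ hp⟩
    · exact ⟨h2.pos, h.le⟩
  refine (Finset.card_le_card h1).trans ?_
  rw [Nat.card_Icc]
  omega

theorem card_Xg_le {p a : ι → ℕ} (hp : ∀ f, 1 ≤ p f) : (Xg p a).card ≤ ∏ f, p f ^ a f := by
  unfold Xg
  rw [Fintype.card_piFinset]
  exact Finset.prod_le_prod' (fun f _ => card_Ug_le (hp f))

theorem card_YY_le (p : ι → ℕ) (σ σ' : Sd ι κ) (L n : ℕ) (hp : ∀ f, 1 ≤ p f) :
    (YY p σ σ' L n).card ≤ (n + 1) * ((∏ f, p f ^ σ.a f) * ∏ f, p f ^ σ'.a f) := by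
  unfold YY
  refine (Finset.card_filter_le _ _).trans ?_
  rw [Finset.card_product, Finset.card_product, Finset.card_range]
  exact Nat.mul_le_mul_left _ (Nat.mul_le_mul (card_Xg_le hp) (card_Xg_le hp))

/-! ## the union bound -/

variable [DecidableEq κ]

open Classical in
/-- the assembly: for every `n < N`, every pattern is void or rare -/
theorem macro_ofC {Ω : Type*} [Fintype Ω] {p : ι → ℕ} {σ σ' : Sd ι κ} (hK : KInj p σ σ')
    {ρ : Ω → κ → ℕ} {M : κ → ℕ} (hT : Table p σ σ' ρ M) (L N k0 m : ℕ) (Q NY : ℝ)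
    (hQ : 0 ≤ Q) (hkm : k0 ≤ m) (hNY : ∀ n < N, ((YY p σ σ' L n).card : ℝ) ≤ NY)
    (h : ∀ n < N, ∀ C C' : Finset ι,
      VoidC p σ σ' L n k0 C C' ∨ RareC p σ σ' L n Q C C') :
    (((univ : Finset Ω).filter (fun r => ∃ n < N,
      (m + 1) ^ 2 ^ (2 * Fintype.card ι) ≤ (repZ p σ σ' L n (ρ r)).card)).card : ℝ) ≤
      Fintype.card Ω * (N * (4 ^ Fintype.card ι * (NY * Q ^ m))) := by
  set B : ℕ × Finset ι × Finset ι → Finset Ω := fun c =>
    (univ : Finset Ω).filter (fun r => ∃ T ⊆ YY p σ σ' L c.1, T.card = m + 1 ∧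
      (∀ y ∈ T, isHit p σ σ' c.1 (ρ r) y) ∧ Set.InjOn hz (T : Set (Hit ι)) ∧
      Pat c.2.1 c.2.2 T) with hB
  have hcov : (univ : Finset Ω).filter (fun r => ∃ n < N,
      (m + 1) ^ 2 ^ (2 * Fintype.card ι) ≤ (repZ p σ σ' L n (ρ r)).card) ⊆
      ((range N) ×ˢ ((univ : Finset (Finset ι)) ×ˢ (univ : Finset (Finset ι)))).biUnion B := by
    intro r hr
    obtain ⟨n, hn, hcard⟩ := (Finset.mem_filter.mp hr).2
    obtain ⟨T, hT', hTc, hhit, hinj⟩ := hits_of_repZ p σ σ' L n (ρ r)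
    rw [← hTc] at hcard
    obtain ⟨C, C', T', hTT, hc', hP⟩ := exists_Pat T (m + 1) (by omega) hcard
    rw [Finset.mem_biUnion]
    refine ⟨(n, C, C'), ?_, ?_⟩
    · rw [Finset.mem_product, Finset.mem_product]
      exact ⟨Finset.mem_range.mpr hn, Finset.mem_univ _, Finset.mem_univ _⟩
    · rw [hB, Finset.mem_filter]
      exact ⟨Finset.mem_univ _, T', hTT.trans hT', hc', fun y hy => hhit y (hTT hy),
        hinj.mono (Finset.coe_subset.mpr hTT), hP⟩
  have hpiece : ∀ c ∈ (range N) ×ˢ ((univ : Finset (Finset ι)) ×ˢ (univ : Finset (Finset ι))),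
      ((B c).card : ℝ) ≤ Fintype.card Ω * (NY * Q ^ m) := by
    rintro ⟨n, C, C'⟩ hc
    rw [Finset.mem_product] at hc
    have hn : n < N := Finset.mem_range.mp hc.1
    have hNY' := hNY n hn
    have hNY0 : 0 ≤ NY := (Nat.cast_nonneg _).trans hNY'
    rcases h n hn C C' with hv | hr
    · have hempty : B (n, C, C') = ∅ := by
        rw [hB]
        apply Finset.filter_eq_empty_iff.mpr
        rintro r _ ⟨T, hTY, hTc, hhit, hinj, hP⟩
        have hX : ∀ y ∈ T, hx1 y ∈ Xg p σ.a ∧ hx2 y ∈ Xg p σ'.a := fun y hy =>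
          ⟨(mem_YY.mp (hTY hy)).2.1, (mem_YY.mp (hTY hy)).2.2.1⟩
        have h2 := hv T hTY (cpt_of_hits hT hX hhit hP) hP hinj
        omega
      rw [hempty, Finset.card_empty, Nat.cast_zero]
      exact mul_nonneg (Nat.cast_nonneg _) (mul_nonneg hNY0 (pow_nonneg hQ _))
    · have h2 := pattern_prob hK hT n C C' (YY p σ σ' L n)
        (fun y hy => ⟨(mem_YY.mp hy).2.1, (mem_YY.mp hy).2.2.1⟩) Q
        (by
          intro y hy
          refine le_trans ?_ (hr y hy)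
          apply le_of_eq
          congr 2) m
      have h3 : ((B (n, C, C')).card : ℝ) ≤ Fintype.card Ω * ((YY p σ σ' L n).card * Q ^ m) := by
        refine le_trans ?_ h2
        apply Nat.cast_le.mpr
        rw [hB]
        refine card_filter_le_of_imp _ _ _ _ _ ?_
        rintro r _ ⟨T, hTY, hTc, hhit, _, hP⟩
        exact ⟨T, hTY, hTc, hhit, hP⟩
      refine h3.trans ?_
      exact mul_le_mul_of_nonneg_left (mul_le_mul_of_nonneg_right hNY' (pow_nonneg hQ _))
        (Nat.cast_nonneg _)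
  calc (((univ : Finset Ω).filter (fun r => ∃ n < N,
      (m + 1) ^ 2 ^ (2 * Fintype.card ι) ≤ (repZ p σ σ' L n (ρ r)).card)).card : ℝ)
      ≤ ((((range N) ×ˢ ((univ : Finset (Finset ι)) ×ˢ
          (univ : Finset (Finset ι)))).biUnion B).card : ℝ) := by
        exact_mod_cast Finset.card_le_card hcov
    _ ≤ ∑ c ∈ (range N) ×ˢ ((univ : Finset (Finset ι)) ×ˢ (univ : Finset (Finset ι))),
          ((B c).card : ℝ) := by
        exact_mod_cast Finset.card_biUnion_le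
    _ ≤ ∑ _c ∈ (range N) ×ˢ ((univ : Finset (Finset ι)) ×ˢ (univ : Finset (Finset ι))),
          (Fintype.card Ω : ℝ) * (NY * Q ^ m) := Finset.sum_le_sum hpiece
    _ = Fintype.card Ω * (N * (4 ^ Fintype.card ι * (NY * Q ^ m))) := by
        rw [Finset.sum_const, Finset.card_product, Finset.card_product, Finset.card_range,
          Finset.card_univ, Fintype.card_finset, nsmul_eq_mul]
        push_cast
        have h4 : (4 : ℝ) ^ Fintype.card ι = 2 ^ Fintype.card ι * 2 ^ Fintype.card ι := by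
          rw [← mul_pow]
          norm_num
        rw [h4]
        ring

open Classical in
/-- the two-sided block from the pattern alternative, exponential form -/
theorem macro_exp {Ω : Type*} [Fintype Ω] {p : ι → ℕ} (hp : ∀ f, 1 ≤ p f) {σ σ' : Sd ι κ}
    (hK : KInj p σ σ') {ρ : Ω → κ → ℕ} {M : κ → ℕ} (hT : Table p σ σ' ρ M) (L N k0 m : ℕ)
    (A l q : ℝ) (hl : 1 ≤ l) (hN : (N : ℝ) ≤ Real.exp (A * l))
    (hX : (∏ f, (p f : ℝ) ^ σ.a f) ≤ Real.exp (A * l))
    (hX' : (∏ f, (p f : ℝ) ^ σ'.a f) ≤ Real.exp (A * l))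
    (hm : (4 * A + 2 * Fintype.card ι + 1) * l ≤ m * q) (hkm : k0 ≤ m)
    (h : ∀ n < N, ∀ C C' : Finset ι,
      VoidC p σ σ' L n k0 C C' ∨ RareC p σ σ' L n (Real.exp (-q)) C C') :
    (((univ : Finset Ω).filter (fun r => ∃ n < N,
      (m + 1) ^ 2 ^ (2 * Fintype.card ι) ≤ (repZ p σ σ' L n (ρ r)).card)).card : ℝ) ≤
      Fintype.card Ω * Real.exp (-l) := by
  have hmain := macro_ofC hK hT L N k0 m (Real.exp (-q))
    (N * ((∏ f, (p f : ℝ) ^ σ.a f) * ∏ f, (p f : ℝ) ^ σ'.a f)) (Real.exp_pos _).le hkm ?_ h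
  · refine hmain.trans (mul_le_mul_of_nonneg_left ?_ (Nat.cast_nonneg _))
    have h0 : (0 : ℝ) ≤ ∏ f, (p f : ℝ) ^ σ.a f :=
      Finset.prod_nonneg (fun f _ => pow_nonneg (Nat.cast_nonneg _) _)
    have h0' : (0 : ℝ) ≤ ∏ f, (p f : ℝ) ^ σ'.a f :=
      Finset.prod_nonneg (fun f _ => pow_nonneg (Nat.cast_nonneg _) _)
    have h4 : (4 : ℝ) ≤ Real.exp 2 := by
      have h5 : Real.exp 2 = Real.exp 1 * Real.exp 1 := by
        rw [← Real.exp_add]
        norm_num
      have h6 := Real.exp_one_gt_d9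
      rw [h5]
      nlinarith
    calc (N : ℝ) * (4 ^ Fintype.card ι * (N * ((∏ f, (p f : ℝ) ^ σ.a f) *
          ∏ f, (p f : ℝ) ^ σ'.a f) * Real.exp (-q) ^ m))
        ≤ Real.exp (A * l) * (Real.exp 2 ^ Fintype.card ι * (Real.exp (A * l) *
          (Real.exp (A * l) * Real.exp (A * l)) * Real.exp (-q) ^ m)) := by
          gcongr
      _ = Real.exp (4 * (A * l) + 2 * Fintype.card ι - m * q) := by
          rw [← Real.exp_nat_mul, ← Real.exp_nat_mul, ← Real.exp_add, ← Real.exp_add,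
            ← Real.exp_add, ← Real.exp_add, ← Real.exp_add]
          congr 1
          ring
      _ ≤ Real.exp (-l) := by
          apply Real.exp_le_exp.mpr
          have h7 : (0 : ℝ) ≤ Fintype.card ι := Nat.cast_nonneg _
          nlinarith
  · intro n hn
    have h1 := card_YY_le p σ σ' L n hp
    have h2 : ((YY p σ σ' L n).card : ℝ) ≤
        ((n + 1 : ℕ) : ℝ) * ((∏ f, (p f : ℝ) ^ σ.a f) * ∏ f, (p f : ℝ) ^ σ'.a f) := by
      exact_mod_cast h1
    refine h2.trans (mul_le_mul_of_nonneg_right ?_ ?_)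
    · exact_mod_cast hn
    · exact mul_nonneg (Finset.prod_nonneg (fun f _ => pow_nonneg (Nat.cast_nonneg _) _))
        (Finset.prod_nonneg (fun f _ => pow_nonneg (Nat.cast_nonneg _) _))

end Pool.Agent.Helper25.T5
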