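import Pool.Agent.Helper25.T5.Gen

/-!
# Crude level 1 block: the probability of a family of hits with a given pattern
-/

namespace Pool.Agent.Helper25.T5

open Finset Pool.Agent.Helper27.T4 Pool.Agent.Helper29.T4

variable {ι κ : Type*} [Fintype ι] [DecidableEq ι]

theorem mem_frs {σ : Sd ι κ} {C : Finset ι} {f : ι} : f ∈ frs σ C ↔ ¬ σ.pre f ⊆ C := by
  simp [frs]

theorem mem_YY {p : ι → ℕ} {σ σ' : Sd ι κ} {L n : ℕ} {y : Hit ι} : y ∈ YY p σ σ' L n ↔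
    hz y ≤ n ∧ hx1 y ∈ Xg p σ.a ∧ hx2 y ∈ Xg p σ'.a ∧ n < hz y + L := by
  unfold YY
  rw [Finset.mem_filter, Finset.mem_product, Finset.mem_product, Finset.mem_range,
    Nat.lt_succ_iff]
  tauto

omit [Fintype ι] in
theorem key_eq {p : ι → ℕ} {σ : Sd ι κ} {w : κ → ℕ} {z : ℕ} {x : ι → ℕ} (h : Res p σ w z x)
    (f : ι) (hw : w (σ.key f (mk (σ.pre f) x)) < p f ^ σ.a f) :
    w (σ.key f (mk (σ.pre f) x)) = vl p σ f z (x f) := by
  unfold vl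
  rw [h f, add_sub_cancel_left, ZMod.val_natCast, Nat.mod_eq_of_lt hw]

theorem mk_const {σ : Sd ι κ} {C : Finset ι} {f : ι} (hf : f ∉ frs σ C) {x y : ι → ℕ}
    (h : ∀ g ∈ C, x g = y g) : mk (σ.pre f) x = mk (σ.pre f) y := by
  rw [mem_frs, not_not] at hf
  funext g
  unfold mk
  split_ifs with hg
  · exact h g (hf hg)
  · rfl

theorem mk_ne {σ : Sd ι κ} {C : Finset ι} {f : ι} (hf : f ∈ frs σ C) {x y : ι → ℕ}
    (h : ∀ g ∉ C, x g ≠ y g) : mk (σ.pre f) x ≠ mk (σ.pre f) y := by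
  rw [mem_frs, Finset.not_subset] at hf
  obtain ⟨g, hg, hgC⟩ := hf
  intro he
  have h2 := congrFun he g
  unfold mk at h2
  rw [if_pos hg, if_pos hg] at h2
  exact h g hgC h2

/-- the keys of the two sides are different (only admissible vectors count) -/
structure KInj (p : ι → ℕ) (σ σ' : Sd ι κ) : Prop where
  left : ∀ f g, ∀ x ∈ Xg p σ.a, ∀ y ∈ Xg p σ.a,
    σ.key f (mk (σ.pre f) x) = σ.key g (mk (σ.pre g) y) →
      f = g ∧ mk (σ.pre f) x = mk (σ.pre f) y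
  right : ∀ f g, ∀ x ∈ Xg p σ'.a, ∀ y ∈ Xg p σ'.a,
    σ'.key f (mk (σ'.pre f) x) = σ'.key g (mk (σ'.pre g) y) →
      f = g ∧ mk (σ'.pre f) x = mk (σ'.pre f) y
  mixed : ∀ f g, ∀ x ∈ Xg p σ.a, ∀ y ∈ Xg p σ'.a,
    σ.key f (mk (σ.pre f) x) ≠ σ'.key g (mk (σ'.pre g) y)

/-- the table: independent values, uniform modulo `p f ^ a f` -/
structure Table {Ω : Type*} [Fintype Ω] (p : ι → ℕ) (σ σ' : Sd ι κ) (ρ : Ω → κ → ℕ)
    (M : κ → ℕ) : Prop where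
  indep : Indep ρ M
  Ml : ∀ f, ∀ x ∈ Xg p σ.a, M (σ.key f (mk (σ.pre f) x)) = p f ^ σ.a f
  Mr : ∀ f, ∀ x ∈ Xg p σ'.a, M (σ'.key f (mk (σ'.pre f) x)) = p f ^ σ'.a f
  ltl : ∀ r f, ∀ x ∈ Xg p σ.a, ρ r (σ.key f (mk (σ.pre f) x)) < p f ^ σ.a f
  ltr : ∀ r f, ∀ x ∈ Xg p σ'.a, ρ r (σ'.key f (mk (σ'.pre f) x)) < p f ^ σ'.a f

variable [DecidableEq κ]

/-- the fresh keys of a hit -/
def fkk (σ σ' : Sd ι κ) (F F' : Finset ι) (y : Hit ι) : Finset κ :=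
  F.image (fun f => σ.key f (mk (σ.pre f) (hx1 y))) ∪
    F'.image (fun f => σ'.key f (mk (σ'.pre f) (hx2 y)))

open Classical in
/-- the value of a fresh key which a hit demands -/
noncomputable def vk (p : ι → ℕ) (σ σ' : Sd ι κ) (n : ℕ) (y : Hit ι) (k : κ) : ℕ :=
  if h : ∃ f, σ.key f (mk (σ.pre f) (hx1 y)) = k then vl p σ h.choose (hz y) (hx1 y h.choose)
  else if h : ∃ f, σ'.key f (mk (σ'.pre f) (hx2 y)) = k then
    vl p σ' h.choose (n - hz y) (hx2 y h.choose)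
  else 0

theorem vk_left {p : ι → ℕ} {σ σ' : Sd ι κ} (hK : KInj p σ σ') {n : ℕ} {y : Hit ι}
    (h1 : hx1 y ∈ Xg p σ.a) (f : ι) :
    vk p σ σ' n y (σ.key f (mk (σ.pre f) (hx1 y))) = vl p σ f (hz y) (hx1 y f) := by
  have hex : ∃ g, σ.key g (mk (σ.pre g) (hx1 y)) = σ.key f (mk (σ.pre f) (hx1 y)) := ⟨f, rfl⟩
  unfold vk
  rw [dif_pos hex, (hK.left _ _ _ h1 _ h1 hex.choose_spec).1]

theorem vk_right {p : ι → ℕ} {σ σ' : Sd ι κ} (hK : KInj p σ σ') {n : ℕ} {y : Hit ι}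
    (h1 : hx1 y ∈ Xg p σ.a) (h2 : hx2 y ∈ Xg p σ'.a) (f : ι) :
    vk p σ σ' n y (σ'.key f (mk (σ'.pre f) (hx2 y))) = vl p σ' f (n - hz y) (hx2 y f) := by
  have hno : ¬ ∃ g, σ.key g (mk (σ.pre g) (hx1 y)) = σ'.key f (mk (σ'.pre f) (hx2 y)) := by
    rintro ⟨g, hg⟩
    exact hK.mixed _ _ _ h1 _ h2 hg
  have hex : ∃ g, σ'.key g (mk (σ'.pre g) (hx2 y)) = σ'.key f (mk (σ'.pre f) (hx2 y)) := ⟨f, rfl⟩
  unfold vk
  rw [dif_neg hno, dif_pos hex, (hK.right _ _ _ h2 _ h2 hex.choose_spec).1]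

theorem prod_fkk {p : ι → ℕ} {σ σ' : Sd ι κ} (hK : KInj p σ σ') {M : κ → ℕ}
    (Ml : ∀ f, ∀ x ∈ Xg p σ.a, M (σ.key f (mk (σ.pre f) x)) = p f ^ σ.a f)
    (Mr : ∀ f, ∀ x ∈ Xg p σ'.a, M (σ'.key f (mk (σ'.pre f) x)) = p f ^ σ'.a f)
    (C C' : Finset ι) {y : Hit ι} (h1 : hx1 y ∈ Xg p σ.a) (h2 : hx2 y ∈ Xg p σ'.a) :
    ∏ k ∈ fkk σ σ' (frs σ C) (frs σ' C') y, ((M k : ℝ))⁻¹ = Wt p σ σ' C C' := by
  unfold fkk Wt
  rw [Finset.prod_union, Finset.prod_image, Finset.prod_image]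
  · congr 1
    · refine Finset.prod_congr rfl (fun f _ => ?_)
      rw [Ml f _ h1]
      push_cast
      rfl
    · refine Finset.prod_congr rfl (fun f _ => ?_)
      rw [Mr f _ h2]
      push_cast
      rfl
  · intro f _ g _ h
    exact (hK.right _ _ _ h2 _ h2 h).1
  · intro f _ g _ h
    exact (hK.left _ _ _ h1 _ h1 h).1
  · rw [Finset.disjoint_left]
    intro k hk hk'
    rw [Finset.mem_image] at hk hk'
    obtain ⟨f, _, rfl⟩ := hk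
    obtain ⟨g, _, hg⟩ := hk'
    exact hK.mixed _ _ _ h1 _ h2 hg.symm

theorem fkk_disj {p : ι → ℕ} {σ σ' : Sd ι κ} (hK : KInj p σ σ') {C C' : Finset ι}
    {T : Finset (Hit ι)} (hX : ∀ y ∈ T, hx1 y ∈ Xg p σ.a ∧ hx2 y ∈ Xg p σ'.a)
    (hP : Pat C C' T) {y z : Hit ι} (hy : y ∈ T) (hz : z ∈ T) (hyz : y ≠ z) :
    Disjoint (fkk σ σ' (frs σ C) (frs σ' C') y) (fkk σ σ' (frs σ C) (frs σ' C') z) := by
  rw [Finset.disjoint_left]
  intro k hk hk'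
  rw [fkk, Finset.mem_union, Finset.mem_image, Finset.mem_image] at hk hk'
  obtain ⟨hy1, hy2⟩ := hX y hy
  obtain ⟨hz1, hz2⟩ := hX z hz
  have hA : ∀ f ∉ C, hx1 y f ≠ hx1 z f := fun f hf h =>
    hyz (hP.2.2.1 f hf (Finset.mem_coe.mpr hy) (Finset.mem_coe.mpr hz) h)
  have hB : ∀ f ∉ C', hx2 y f ≠ hx2 z f := fun f hf h =>
    hyz (hP.2.2.2 f hf (Finset.mem_coe.mpr hy) (Finset.mem_coe.mpr hz) h)
  rcases hk with ⟨f, hf, rfl⟩ | ⟨f, hf, rfl⟩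
  · rcases hk' with ⟨g, hg, he⟩ | ⟨g, hg, he⟩
    · have hfg := hK.left _ _ _ hz1 _ hy1 he
      obtain rfl := hfg.1
      exact mk_ne hf hA hfg.2.symm
    · exact hK.mixed _ _ _ hy1 _ hz2 he.symm
  · rcases hk' with ⟨g, hg, he⟩ | ⟨g, hg, he⟩
    · exact hK.mixed _ _ _ hz1 _ hy2 he
    · have hfg := hK.right _ _ _ hz2 _ hy2 he
      obtain rfl := hfg.1
      exact mk_ne hf hB hfg.2.symm

omit [DecidableEq κ] in
/-- hits with a pattern are compatible -/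
theorem cpt_of_hits {Ω : Type*} [Fintype Ω] {p : ι → ℕ} {σ σ' : Sd ι κ} {ρ : Ω → κ → ℕ}
    {M : κ → ℕ} (hT : Table p σ σ' ρ M) {r : Ω} {n : ℕ} {C C' : Finset ι}
    {T : Finset (Hit ι)} (hX : ∀ y ∈ T, hx1 y ∈ Xg p σ.a ∧ hx2 y ∈ Xg p σ'.a)
    (hhit : ∀ y ∈ T, isHit p σ σ' n (ρ r) y) (hP : Pat C C' T) :
    ∀ y ∈ T, ∀ z ∈ T, Cpt p σ σ' n C C' y z := by
  intro y hy z hz
  refine ⟨hP.1 y hy z hz, hP.2.1 y hy z hz, ?_, ?_⟩
  · intro f hf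
    have h1 := key_eq (hhit y hy).1 f (hT.ltl r _ _ (hX y hy).1)
    have h2 := key_eq (hhit z hz).1 f (hT.ltl r _ _ (hX z hz).1)
    rw [← h1, ← h2, mk_const hf (hP.1 y hy z hz)]
  · intro f hf
    have h1 := key_eq (hhit y hy).2 f (hT.ltr r _ _ (hX y hy).2)
    have h2 := key_eq (hhit z hz).2 f (hT.ltr r _ _ (hX z hz).2)
    rw [← h1, ← h2, mk_const hf (hP.2.1 y hy z hz)]

omit [Fintype ι] [DecidableEq ι] [DecidableEq κ] in
theorem card_filter_le_of_imp {α : Type*} (S : Finset α) (P P' : α → Prop)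
    (iP : DecidablePred P) (iP' : DecidablePred P') (h : ∀ a ∈ S, P a → P' a) :
    (@Finset.filter _ P iP S).card ≤ (@Finset.filter _ P' iP' S).card := by
  apply Finset.card_le_card
  intro a ha
  simp only [Finset.mem_filter] at ha ⊢
  exact ⟨ha.1, h a ha.1 ha.2⟩

open Classical in
/-- the probability of a family of `m + 1` hits for `n` with a given pattern -/
theorem pattern_prob {Ω : Type*} [Fintype Ω] {p : ι → ℕ} {σ σ' : Sd ι κ} (hK : KInj p σ σ')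
    {ρ : Ω → κ → ℕ} {M : κ → ℕ} (hT : Table p σ σ' ρ M) (n : ℕ) (C C' : Finset ι)
    (Y : Finset (Hit ι)) (hY : ∀ y ∈ Y, hx1 y ∈ Xg p σ.a ∧ hx2 y ∈ Xg p σ'.a) (Q : ℝ)
    (hQ : ∀ y ∈ Y, ((Y.filter (Cpt p σ σ' n C C' y)).card : ℝ) * Wt p σ σ' C C' ≤ Q) (m : ℕ) :
    (((univ : Finset Ω).filter (fun r => ∃ T ⊆ Y, T.card = m + 1 ∧
      (∀ y ∈ T, isHit p σ σ' n (ρ r) y) ∧ Pat C C' T)).card : ℝ) ≤
      Fintype.card Ω * (Y.card * Q ^ m) := by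
  have hmain := tuple_bound_abs hT.indep Y (fun y r => isHit p σ σ' n (ρ r) y)
    (fkk σ σ' (frs σ C) (frs σ' C')) (vk p σ σ' n) ?_ (Cpt p σ σ' n C C') Q ?_ m
  · refine le_trans ?_ hmain
    apply Nat.cast_le.mpr
    refine card_filter_le_of_imp _ _ _ _ _ ?_
    rintro r _ ⟨T, hTY, hTc, hhit, hP⟩
    have hX : ∀ y ∈ T, hx1 y ∈ Xg p σ.a ∧ hx2 y ∈ Xg p σ'.a := fun y hy => hY y (hTY hy)
    exact ⟨T, hTY, hTc, hhit, cpt_of_hits hT hX hhit hP,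
      fun y hy z hz hyz => fkk_disj hK hX hP hy hz hyz⟩
  · intro y hy r hhit k hk
    rw [fkk, Finset.mem_union, Finset.mem_image, Finset.mem_image] at hk
    rcases hk with ⟨f, _, rfl⟩ | ⟨f, _, rfl⟩
    · rw [vk_left hK (hY y hy).1]
      exact key_eq hhit.1 f (hT.ltl r _ _ (hY y hy).1)
    · rw [vk_right hK (hY y hy).1 (hY y hy).2]
      exact key_eq hhit.2 f (hT.ltr r _ _ (hY y hy).2)
  · intro y hy
    refine le_trans (le_of_eq ?_) (hQ y hy)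
    rw [← nsmul_eq_mul, ← Finset.sum_const]
    apply Finset.sum_congr rfl
    intro z hz
    have hz' := hY z (Finset.mem_filter.mp hz).1
    rw [prod_fkk hK hT.Ml hT.Mr C C' hz'.1 hz'.2]

omit [DecidableEq ι] [DecidableEq κ] in
/-- many hits contain `k` hits with a pattern -/
theorem exists_Pat (T : Finset (Hit ι)) (k : ℕ) (hk : 1 ≤ k)
    (hT : k ^ 2 ^ (2 * Fintype.card ι) ≤ T.card) :
    ∃ C C' : Finset ι, ∃ T' ⊆ T, T'.card = k ∧ Pat C C' T' := by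
  classical
  obtain ⟨T', hT', hc, h⟩ := exists_pattern
    (Finset.univ : Finset (Bool × ι))
    (fun i (y : Hit ι) => if i.1 then hx1 y i.2 else hx2 y i.2) k hk T (by
      refine le_trans (le_of_eq ?_) hT
      congr 2
      rw [Finset.card_univ, Fintype.card_prod, Fintype.card_bool])
  refine ⟨univ.filter (fun f => ∀ y ∈ T', ∀ z ∈ T', hx1 y f = hx1 z f),
    univ.filter (fun f => ∀ y ∈ T', ∀ z ∈ T', hx2 y f = hx2 z f), T', hT', hc, ?_, ?_, ?_, ?_⟩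
  · intro y hy z hz f hf
    exact (Finset.mem_filter.mp hf).2 y hy z hz
  · intro y hy z hz f hf
    exact (Finset.mem_filter.mp hf).2 y hy z hz
  · intro f hf
    rcases h (true, f) (Finset.mem_univ _) with h1 | h1
    · exfalso
      apply hf
      rw [Finset.mem_filter]
      exact ⟨Finset.mem_univ _, fun y hy z hz => by simpa using h1 y hy z hz⟩
    · simpa using h1
  · intro f hf
    rcases h (false, f) (Finset.mem_univ _) with h1 | h1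
    · exfalso
      apply hf
      rw [Finset.mem_filter]
      exact ⟨Finset.mem_univ _, fun y hy z hz => by simpa using h1 y hy z hz⟩
    · simpa using h1

end Pool.Agent.Helper25.T5
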