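import Pool.Agent.Helper25.T5.FarE
import Pool.Agent.Helper97.T5.FarPr

/-!
# T5b, FARE for the probability `PrLe` of helper42

`PrLe_of_table`: a bound for every independent table gives a bound for `PrLe` (the values of the
keys are reduced modulo a divisor of their number of values).
-/

set_option autoImplicit false

namespace Pool.Agent.Helper25.T5

open Finset Pool.Agent.Helper29.T4 Pool.Agent.Helper98.T5
open Pool.Agent.Helper5.ET hiding OmK ext PrLe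
open Pool.Agent.Helper42.T5.Pr

section Gen

variable {ι κ : Type} [Fintype ι] [DecidableEq ι] [DecidableEq κ]

/-- the keys of a side: they lie in `K`, and their number of values is divisible by the modulus -/
structure LayG (M : κ → ℕ) (K : Finset κ) (p : ι → ℕ) (σ : Sd ι κ) : Prop where
  mem : ∀ f, ∀ x ∈ Xg p σ.a, σ.key f (mk (σ.pre f) x) ∈ K
  dvd : ∀ f, ∀ x ∈ Xg p σ.a, p f ^ σ.a f ∣ M (σ.key f (mk (σ.pre f) x))

open Classical in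
/-- the modulus of a key -/
noncomputable def MG (p : ι → ℕ) (σ σ' : Sd ι κ) (k : κ) : ℕ :=
  if h : ∃ f, ∃ x ∈ Xg p σ.a, k = σ.key f (mk (σ.pre f) x) then p h.choose ^ σ.a h.choose
  else if h : ∃ f, ∃ x ∈ Xg p σ'.a, k = σ'.key f (mk (σ'.pre f) x) then
    p h.choose ^ σ'.a h.choose
  else 1

variable {M : κ → ℕ} {K : Finset κ} {p : ι → ℕ} {σ σ' : Sd ι κ}

theorem MG_left (hK : KInj p σ σ') (f : ι) {x : ι → ℕ} (hx : x ∈ Xg p σ.a) :
    MG p σ σ' (σ.key f (mk (σ.pre f) x)) = p f ^ σ.a f := by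
  have hex : ∃ g, ∃ y ∈ Xg p σ.a, σ.key f (mk (σ.pre f) x) = σ.key g (mk (σ.pre g) y) :=
    ⟨f, x, hx, rfl⟩
  unfold MG
  rw [dif_pos hex]
  obtain ⟨y, hy, he⟩ := hex.choose_spec
  rw [← (hK.left f _ x hx y hy he).1]

theorem MG_right (hK : KInj p σ σ') (f : ι) {x : ι → ℕ} (hx : x ∈ Xg p σ'.a) :
    MG p σ σ' (σ'.key f (mk (σ'.pre f) x)) = p f ^ σ'.a f := by
  have hn : ¬ ∃ g, ∃ y ∈ Xg p σ.a, σ'.key f (mk (σ'.pre f) x) = σ.key g (mk (σ.pre g) y) := by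
    rintro ⟨g, y, hy, he⟩
    exact hK.mixed g f y hy x hx he.symm
  have hex : ∃ g, ∃ y ∈ Xg p σ'.a, σ'.key f (mk (σ'.pre f) x) = σ'.key g (mk (σ'.pre g) y) :=
    ⟨f, x, hx, rfl⟩
  unfold MG
  rw [dif_neg hn, dif_pos hex]
  obtain ⟨y, hy, he⟩ := hex.choose_spec
  rw [← (hK.right f _ x hx y hy he).1]

theorem MG_pos (hp : ∀ f, 0 < p f) (k : κ) : 0 < MG p σ σ' k := by
  unfold MG
  split_ifs
  · exact pow_pos (hp _) _
  · exact pow_pos (hp _) _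
  · exact one_pos

theorem MG_dvd (hK : KInj p σ σ') (h : LayG M K p σ) (h' : LayG M K p σ') (k : κ) :
    MG p σ σ' k ∣ M k := by
  by_cases h1 : ∃ f, ∃ x ∈ Xg p σ.a, k = σ.key f (mk (σ.pre f) x)
  · obtain ⟨f, x, hx, rfl⟩ := h1
    rw [MG_left hK f hx]
    exact h.dvd f x hx
  · by_cases h2 : ∃ f, ∃ x ∈ Xg p σ'.a, k = σ'.key f (mk (σ'.pre f) x)
    · obtain ⟨f, x, hx, rfl⟩ := h2
      rw [MG_right hK f hx]
      exact h'.dvd f x hx
    · unfold MG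
      rw [dif_neg h1, dif_neg h2]
      exact one_dvd _

theorem MG_out (h : LayG M K p σ) (h' : LayG M K p σ') (k : κ) (hk : k ∉ K) :
    MG p σ σ' k = 1 := by
  unfold MG
  rw [dif_neg, dif_neg]
  · rintro ⟨f, x, hx, rfl⟩
    exact hk (h'.mem f x hx)
  · rintro ⟨f, x, hx, rfl⟩
    exact hk (h.mem f x hx)

open Classical in
/-- from independent tables to `PrLe` -/
theorem PrLe_of_table (hp : ∀ f, 0 < p f) (hK : KInj p σ σ') (h : LayG M K p σ)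
    (h' : LayG M K p σ') (E : (κ → ℕ) → Prop) (ε : ℝ)
    (hcongr : ∀ w w' : κ → ℕ,
      (∀ f, ∀ x ∈ Xg p σ.a, w (σ.key f (mk (σ.pre f) x)) ≡
        w' (σ.key f (mk (σ.pre f) x)) [MOD p f ^ σ.a f]) →
      (∀ f, ∀ x ∈ Xg p σ'.a, w (σ'.key f (mk (σ'.pre f) x)) ≡
        w' (σ'.key f (mk (σ'.pre f) x)) [MOD p f ^ σ'.a f]) → (E w → E w'))
    (hE : ∀ {Ω : Type} [Fintype Ω] (ρ : Ω → κ → ℕ) (M' : κ → ℕ), Table p σ σ' ρ M' →
      (((univ : Finset Ω).filter (fun r => E (ρ r))).card : ℝ) ≤ Fintype.card Ω * ε) :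
    PrLe M K E ε := by
  set M' : κ → ℕ := MG p σ σ' with hM'
  have hMp : ∀ k, 0 < M' k := MG_pos hp
  have hI := Pool.Agent.Helper97.T5.indep_red M K M' hMp (fun k _ => MG_dvd hK h h' k)
    (MG_out h h')
  have hT : Table p σ σ' (fun (r : {r // r ∈ OmK M K}) k => ext K r.1 k % M' k) M' := by
    refine ⟨hI, fun f x hx => MG_left hK f hx, fun f x hx => MG_right hK f hx, ?_, ?_⟩
    · intro r f x hx
      have e : M' (σ.key f (mk (σ.pre f) x)) = p f ^ σ.a f := MG_left hK f hx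
      show ext K r.1 _ % M' (σ.key f (mk (σ.pre f) x)) < p f ^ σ.a f
      rw [← e]
      exact Nat.mod_lt _ (hMp _)
    · intro r f x hx
      have e : M' (σ'.key f (mk (σ'.pre f) x)) = p f ^ σ'.a f := MG_right hK f hx
      show ext K r.1 _ % M' (σ'.key f (mk (σ'.pre f) x)) < p f ^ σ'.a f
      rw [← e]
      exact Nat.mod_lt _ (hMp _)
  have h4 := hE _ M' hT
  have hcs := Pool.Agent.Helper97.T5.card_sub M K E
  unfold PrLe
  rw [mul_comm]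
  refine le_trans ?_ (h4.trans (le_of_eq ?_))
  rotate_left
  · rw [Fintype.card_coe]
  rw [hcs]
  apply Nat.cast_le.mpr
  refine card_filter_le_of_imp _ _ _ _ _ ?_
  intro r _ hr
  refine hcongr _ _ ?_ ?_ hr
  · intro f x hx
    have e : M' (σ.key f (mk (σ.pre f) x)) = p f ^ σ.a f := MG_left hK f hx
    show _ ≡ ext K r.1 (σ.key f (mk (σ.pre f) x)) % M' (σ.key f (mk (σ.pre f) x))
      [MOD p f ^ σ.a f]
    rw [e]
    exact (Nat.mod_modEq _ _).symm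
  · intro f x hx
    have e : M' (σ'.key f (mk (σ'.pre f) x)) = p f ^ σ'.a f := MG_right hK f hx
    show _ ≡ ext K r.1 (σ'.key f (mk (σ'.pre f) x)) % M' (σ'.key f (mk (σ'.pre f) x))
      [MOD p f ^ σ'.a f]
    rw [e]
    exact (Nat.mod_modEq _ _).symm

end Gen

open Classical in
/-- FARE in the form `PrLe` -/
theorem farE_pr {ε : Type} [Fintype ε] [DecidableEq ε] (P : ℕ) : ∃ l0 : ℕ, ∀ l l' : ℕ, l0 ≤ l →
    l0 ≤ l - l' → 100 * (l - l') ≤ l →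
    ∀ {κ : Type} [DecidableEq κ] (M : κ → ℕ) (K : Finset κ)
    (p : Fin 3 ⊕ ε → ℕ) (_ : PrOK p P) (_ : ∀ f, p (Sum.inl f) = pr f)
    (σ σ' : Sd (Fin 3 ⊕ ε) κ) (_ : ESide σ l) (_ : ESide σ' l') (_ : σ'.a ≤ σ.a)
    (_ : KInj p σ σ') (_ : LayG M K p σ) (_ : LayG M K p σ') (L N m : ℕ)
    (_ : ∑ q, (al p σ.a (Sum.inr q) - al p σ'.a (Sum.inr q)) ≤ 1 / 100 * ((l : ℝ) - l'))
    (_ : ∑ q, al p σ.a (Sum.inr q) ≤ 50 * l)
    (_ : (L : ℝ) ≤ (∏ f, (p f : ℝ) ^ σ'.a f) * Real.exp (8 / 100 * ((l : ℝ) - l')))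
    (_ : (N : ℝ) ≤ Real.exp (100 * l))
    (_ : (20000 + 100 * Fintype.card ε) * l ≤ m * (l - l')) (_ : 2 * P ≤ m),
    PrLe M K (fun w => ∃ n < N, ∃ T ⊆ YY p σ σ' L n,
      (m + 1) ^ 2 ^ (2 * (3 + Fintype.card ε)) ≤ T.card ∧
      (∀ y ∈ T, isHit p σ σ' n w y) ∧ Set.InjOn hz (T : Set (Hit (Fin 3 ⊕ ε))) ∧
      ¬ ∃ T' ⊆ T, T'.card = m + 1 ∧ ∃ C C' : Finset (Fin 3 ⊕ ε),
        ((∀ f, Sum.inl f ∈ C) ∧ ∀ f, Sum.inl f ∈ C') ∧ Pat C C' T') (Real.exp (-(l : ℝ))) := by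
  obtain ⟨l0, h0⟩ := farE (ε := ε) P
  refine ⟨l0, ?_⟩
  intro l l' hl hD hml κ _ M K p hp hpm σ σ' hS hS' ha hK hL1 hL2 L N m h1 h2 h3 h4 h5 h6
  refine PrLe_of_table (fun f => (hp.prime f).pos) hK hL1 hL2 _ _ ?_ ?_
  · rintro w w' hw hw' ⟨n, hn, T, hT, hc, hh, hi, hno⟩
    refine ⟨n, hn, T, hT, hc, fun y hy => ?_, hi, hno⟩
    have hm := mem_YY.mp (hT hy)
    refine ⟨fun f => ?_, fun f => ?_⟩
    · rw [(hh y hy).1 f, (ZMod.natCast_eq_natCast_iff _ _ _).2 (hw f _ hm.2.1)]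
    · rw [(hh y hy).2 f, (ZMod.natCast_eq_natCast_iff _ _ _).2 (hw' f _ hm.2.2.1)]
  · intro Ω _ ρ M' hT
    refine le_trans (Nat.cast_le.mpr (card_filter_le_of_imp _ _ _ _ _ (fun r _ hr => ?_)))
      (h0 l l' hl hD hml p hp hpm σ σ' hS hS' ha hK.toW hT.toW L N m h1 h2 h3 h4 h5 h6)
    exact hr

end Pool.Agent.Helper25.T5
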